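import Pool.Agent.R384.X.Coh
import Pool.Agent.R384.Z.Abs

/-!
# Characters of the absolute Galois group of `ℚ` which are quadratic modulo four: local lemmas

Over `ℚ` (compare `Pool/Agent/R384/Main.lean`, where the base field is `ℚ(√-7)`).
-/

set_option autoImplicit false
set_option linter.unusedSectionVars false

namespace Pool.Agent.N848.Q

open Pool.Agent.Y715.Red Pool.Agent.Y715.Nr Pool.Agent.W237.RK
open Pool.Agent.Y715.Gi (QB)
open Pool.Agent.Y715.Lc (norm_two_odd)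
open Pool.Agent.R384 (vl Coc CobOn md md_zero vl_sub_one vl_one vl_mul norm_two' loc_triv loc_four
  dec_of_inert add_lt')
open Pool.Agent.Z384 (exists_cmpQ val_of_norm sqf_odd)

/-- the absolute Galois group of `ℚ` -/
abbrev G : Type := QB ≃ₐ[ℚ] QB

/-! ### Decomposition and inertia groups -/

section groups

variable {p : ℕ} [Fact p.Prime]

/-- `τ` extends `σ` -/
def Cq (ι : QB →ₐ[ℚ] PadicAlgCl p) (τ : Au p) (σ : G) : Prop := ∀ x, τ (ι x) = ι (σ x)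

lemma Cq.mul {ι : QB →ₐ[ℚ] PadicAlgCl p} {τ τ' : Au p} {σ σ' : G} (h : Cq ι τ σ)
    (h' : Cq ι τ' σ') : Cq ι (τ * τ') (σ * σ') := by
  intro x
  rw [AlgEquiv.mul_apply, AlgEquiv.mul_apply, h', h]

lemma Cq.inv {ι : QB →ₐ[ℚ] PadicAlgCl p} {τ : Au p} {σ : G} (h : Cq ι τ σ) :
    Cq ι τ⁻¹ σ⁻¹ := by
  intro x
  have h5 := h (σ⁻¹ x)
  rw [← AlgEquiv.mul_apply σ σ⁻¹, mul_inv_cancel, AlgEquiv.one_apply] at h5
  rw [← h5, ← AlgEquiv.mul_apply τ⁻¹ τ, inv_mul_cancel, AlgEquiv.one_apply]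

/-- the decomposition group -/
def DD (ι : QB →ₐ[ℚ] PadicAlgCl p) : Subgroup G where
  carrier := {σ | ∃ τ : Au p, Cq ι τ σ}
  mul_mem' := by
    rintro a b ⟨t, ht⟩ ⟨u, hu⟩
    exact ⟨t * u, ht.mul hu⟩
  one_mem' := ⟨1, fun x => rfl⟩
  inv_mem' := by
    rintro a ⟨t, ht⟩
    exact ⟨t⁻¹, ht.inv⟩

/-- the inertia group -/
def II (ι : QB →ₐ[ℚ] PadicAlgCl p) : Subgroup G where
  carrier := {σ | ∃ τ : Au p, Cq ι τ σ ∧ Inert τ}
  mul_mem' := by
    rintro a b ⟨t, ht, h1⟩ ⟨u, hu, h2⟩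
    refine ⟨t * u, ht.mul hu, ?_⟩
    intro z hz
    have h3 := h1 (u z) (by rwa [nrm])
    have h4 := h2 z hz
    have e : (t * u) z - z = (t (u z) - u z) + (u z - z) := by
      rw [AlgEquiv.mul_apply]
      ring
    rw [e]
    exact lt_of_le_of_lt (IsUltrametricDist.norm_add_le_max _ _) (max_lt h3 h4)
  one_mem' := ⟨1, fun x => rfl, fun z _ => by simp⟩
  inv_mem' := by
    rintro a ⟨t, ht, h1⟩
    refine ⟨t⁻¹, ht.inv, ?_⟩
    intro z hz
    have h3 := h1 z hz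
    have e : t⁻¹ z - z = -(t⁻¹ (t z - z)) := by
      rw [map_sub, ← AlgEquiv.mul_apply t⁻¹ t, inv_mul_cancel, AlgEquiv.one_apply]
      ring
    rw [e, norm_neg, nrm]
    exact h3

variable {ι : QB →ₐ[ℚ] PadicAlgCl p}

lemma mem_DD {σ : G} : σ ∈ DD ι ↔ ∃ τ : Au p, Cq ι τ σ := Iff.rfl

lemma mem_II {σ : G} : σ ∈ II ι ↔ ∃ τ : Au p, Cq ι τ σ ∧ Inert τ := Iff.rfl

lemma II_le : II ι ≤ DD ι := fun _ ⟨τ, h, _⟩ => ⟨τ, h⟩

lemma conj_mem {σ₀ τ : G} (h0 : σ₀ ∈ II ι) (ht : τ ∈ DD ι) : τ⁻¹ * σ₀ * τ ∈ II ι := by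
  obtain ⟨t0, h1, h2⟩ := h0
  obtain ⟨t, h3⟩ := ht
  refine ⟨t⁻¹ * t0 * t, (h3.inv.mul h1).mul h3, ?_⟩
  intro z hz
  have h5 := h2 (t z) (by rwa [nrm])
  have e : (t⁻¹ * t0 * t) z - z = t⁻¹ (t0 (t z) - t z) := by
    rw [map_sub, AlgEquiv.mul_apply, AlgEquiv.mul_apply, ← AlgEquiv.mul_apply t⁻¹ t,
      inv_mul_cancel, AlgEquiv.one_apply]
  rw [e, nrm]
  exact h5

/-- the conjugate embedding -/
noncomputable def cι (ι : QB →ₐ[ℚ] PadicAlgCl p) (t : G) : QB →ₐ[ℚ] PadicAlgCl p :=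
  ι.comp (t : QB →ₐ[ℚ] QB)

lemma cι_apply (t : G) (x : QB) : cι ι t x = ι (t x) := rfl

lemma cmp_conj {t σ : G} {ρ : Au p} (h : Cq ι ρ σ) : Cq (cι ι t) ρ (t⁻¹ * σ * t) := by
  intro x
  rw [cι_apply, cι_apply, h, AlgEquiv.mul_apply, AlgEquiv.mul_apply, ← AlgEquiv.mul_apply t t⁻¹,
    mul_inv_cancel, AlgEquiv.one_apply]

lemma II_conj {t σ : G} (h : σ ∈ II ι) : t⁻¹ * σ * t ∈ II (cι ι t) := by
  obtain ⟨ρ, h1, h2⟩ := h
  exact ⟨ρ, cmp_conj h1, h2⟩

lemma DD_conj {t σ : G} (h : σ ∈ DD ι) : t⁻¹ * σ * t ∈ DD (cι ι t) := by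
  obtain ⟨ρ, h1⟩ := h
  exact ⟨ρ, cmp_conj h1⟩

variable (p) in
lemma exists_iota : Nonempty (QB →ₐ[ℚ] PadicAlgCl p) :=
  ⟨IsAlgClosed.lift (R := ℚ) (S := QB) (M := AlgebraicClosure ℚ_[p])⟩

lemma fix_D {t : QB} (h : ∀ σ ∈ DD ι, σ t = t) (τ : Au p) : τ (ι t) = ι t := by
  obtain ⟨σ, hσ⟩ := exists_cmpQ ι τ
  rw [hσ, h σ ⟨τ, hσ⟩]

lemma fix_I {t : QB} (h : ∀ σ ∈ II ι, σ t = t) (τ : Au p) (hin : Inert τ) : τ (ι t) = ι t := by
  obtain ⟨σ, hσ⟩ := exists_cmpQ ι τ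
  rw [hσ, h σ ⟨τ, hσ, hin⟩]

end groups

/-! ### Square roots of integers -/

section roots

variable {p : ℕ} [Fact p.Prime] {ι : QB →ₐ[ℚ] PadicAlgCl p}

/-- if the square root is unramified, the valuation is even -/
lemma even_val {t : QB} {e : ℤ} (he0 : e ≠ 0) (ht : t ^ 2 = e) (h : ∀ σ ∈ II ι, σ t = t) :
    Even (padicValRat p (e : ℚ)) := by
  have ht0 : t ≠ 0 := by
    rintro rfl
    apply he0
    have h1 : (e : QB) = 0 := by rw [← ht]; ring
    exact_mod_cast h1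
  have hmem : ι t ∈ kur p := mem_kur fun τ hτ => fix_I h τ (inert_of_kur hτ)
  obtain ⟨m, hm⟩ := norm_ne ((map_ne_zero ι).2 ht0) hmem
  refine val_of_norm (p := p) (by exact_mod_cast he0) (m := m) ?_
  have h1 : (((e : ℚ) : ℚ) : PadicAlgCl p) = (ι t) ^ 2 := by
    rw [← map_pow, ht, map_intCast, Rat.cast_intCast]
  rw [h1, norm_pow, hm, mul_comm, _root_.zpow_mul]
  norm_cast

lemma not_dvd_of_fix {t : QB} {e : ℤ} (he : Squarefree e.natAbs) (ht : t ^ 2 = e)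
    (h : ∀ σ ∈ II ι, σ t = t) : ¬ p ∣ e.natAbs := by
  have he0 : e ≠ 0 := by
    rintro rfl
    rw [Int.natAbs_zero] at he
    exact not_squarefree_zero he
  exact sqf_odd (p := p) (r := (e : ℚ)) (e := e) (f := 1) one_ne_zero he (by ring)
    (even_val he0 ht h)

/-- the residue -/
lemma sq_of_fix {t : QB} {e : ℤ} (ht : t ^ 2 = e)
    (h : ∀ σ ∈ DD ι, σ t = t) : IsSquare (e : ZMod p) := by
  obtain ⟨z, hz⟩ := fix_mem (fix_D h)
  have h1 : z ^ 2 = (e : ℚ_[p]) := by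
    apply (algebraMap ℚ_[p] (PadicAlgCl p)).injective
    rw [map_pow, hz, ← map_pow, ht, map_intCast, map_intCast]
  have h2 : ‖(e : ℚ_[p])‖ ≤ 1 := by
    have := PadicInt.norm_le_one (e : ℤ_[p])
    rw [← PadicInt.padic_norm_e_of_padicInt] at this
    simpa using this
  have h3 : ‖z‖ ≤ 1 := by
    rw [← h1, norm_pow] at h2
    exact (pow_le_one_iff_of_nonneg (norm_nonneg _) two_ne_zero).1 h2
  set z' : ℤ_[p] := ⟨z, h3⟩ with hz'
  have h4 : z' ^ 2 = (e : ℤ_[p]) := by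
    apply Subtype.ext
    show (z : ℚ_[p]) ^ 2 = _
    rw [h1]
    push_cast
    rfl
  refine ⟨PadicInt.toZMod z', ?_⟩
  rw [← map_mul, ← pow_two, h4, map_intCast]

/-- two roots of a rational number -/
lemma root_or {t : QB} {a : ℚ} (ht : t ^ 2 = a) (σ : G) : σ t = t ∨ σ t = -t := by
  have h : (σ t) ^ 2 = t ^ 2 := by rw [← map_pow, ht, map_ratCast]
  exact sq_eq_sq_iff_eq_or_eq_neg.1 h

lemma root_or' {t : QB} {a : ℤ} (ht : t ^ 2 = a) (σ : G) : σ t = t ∨ σ t = -t :=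
  root_or (a := a) (by rw [ht]; simp) σ

lemma ne_neg {t : QB} (ht : t ≠ 0) : t ≠ -t := by
  intro h
  have h2 : (2 : QB) * t = 0 := by linear_combination h
  exact ht ((mul_eq_zero.1 h2).resolve_left two_ne_zero)

/-- a rational square root of a squarefree integer -/
lemma eq_one_of_fix {t : QB} {e : ℤ} (he : Squarefree e.natAbs) (ht : t ^ 2 = e)
    (h : ∀ σ : G, σ t = t) : e = 1 := by
  have h2 := InfiniteGalois.mem_bot_iff_fixed (k := ℚ) (K := QB) t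
  rw [IntermediateField.mem_bot] at h2
  obtain ⟨q, hq⟩ := h2.2 h
  have h3 : q ^ 2 = (e : ℚ) := by
    apply (algebraMap ℚ QB).injective
    rw [map_pow, hq, ht, map_intCast]
  have h4 : IsSquare (e : ℚ) := ⟨q, by rw [← h3]; ring⟩
  rw [Rat.isSquare_intCast_iff] at h4
  obtain ⟨k, hk⟩ := h4
  have h5 : k.natAbs * k.natAbs ∣ e.natAbs := by
    rw [hk, Int.natAbs_mul]
  have h6 := he _ h5
  rw [Nat.isUnit_iff] at h6
  have h7 : k * k = 1 := by
    rw [← Int.natAbs_mul_self, h6]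
    norm_num
  rw [hk, h7]

end roots

/-! ### The real place -/

/-- the complex conjugation -/
lemma exists_cc : ∃ σ : G, σ * σ = 1 ∧ ∀ (t : QB) (a : ℚ), t ^ 2 = a →
    (0 < a → σ t = t) ∧ (a < 0 → σ t = -t) := by
  obtain ⟨φ⟩ : Nonempty (QB →ₐ[ℚ] ℂ) := ⟨IsAlgClosed.lift⟩
  let _ : Algebra QB ℂ := φ.toRingHom.toAlgebra
  have hst : IsScalarTower ℚ QB ℂ :=
    IsScalarTower.of_algebraMap_eq (fun x => (φ.commutes x).symm)
  let τ' : ℂ ≃ₐ[ℚ] ℂ := Complex.conjAe.restrictScalars ℚ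
  have hτ : ∀ z : ℂ, τ' z = (starRingEnd ℂ) z := fun z => rfl
  have hσ : ∀ x : QB, (starRingEnd ℂ) (φ x) = φ (τ'.restrictNormal QB x) := by
    intro x
    rw [← hτ]
    exact (AlgEquiv.restrictNormal_commutes τ' QB x).symm
  refine ⟨τ'.restrictNormal QB, ?_, ?_⟩
  · ext x
    apply φ.injective
    show φ (τ'.restrictNormal QB (τ'.restrictNormal QB x)) = φ x
    rw [← hσ, ← hσ, Complex.conj_conj]
  · intro t a ht
    have h1 : (φ t) ^ 2 = ((a : ℝ) : ℂ) := by rw [← map_pow, ht, map_ratCast]; simp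
    have h2 := congrArg Complex.re h1
    have h3 := congrArg Complex.im h1
    rw [pow_two, Complex.mul_re, Complex.ofReal_re] at h2
    rw [pow_two, Complex.mul_im, Complex.ofReal_im] at h3
    constructor
    · intro ha
      apply φ.injective
      show φ (τ'.restrictNormal QB t) = φ t
      rw [← hσ]
      have ha' : (0 : ℝ) < a := by exact_mod_cast ha
      have h4 : (φ t).im = 0 := by
        rcases mul_eq_zero.1 (show (φ t).re * (φ t).im = 0 by linarith) with h | h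
        · rw [h] at h2
          nlinarith
        · exact h
      exact Complex.conj_eq_iff_im.2 h4
    · intro ha
      apply φ.injective
      show φ (τ'.restrictNormal QB t) = φ (-t)
      rw [← hσ, map_neg]
      have ha' : (a : ℝ) < 0 := by exact_mod_cast ha
      have h4 : (φ t).re = 0 := by
        rcases mul_eq_zero.1 (show (φ t).re * (φ t).im = 0 by linarith) with h | h
        · exact h
        · rw [h] at h2
          nlinarith
      apply Complex.ext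
      · rw [Complex.conj_re, Complex.neg_re, h4, neg_zero]
      · rw [Complex.conj_im, Complex.neg_im]

end Pool.Agent.N848.Q
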