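import Pool.Agent.N848.Q.A

/-!
# The vanishing of the Selmer groups of the characters which are quadratic modulo four
-/

set_option autoImplicit false
set_option linter.unusedSectionVars false

namespace Pool.Agent.N848.Q

open Pool.Agent.Y715.Red Pool.Agent.Y715.Nr Pool.Agent.W237.RK
open Pool.Agent.Y715.Gi (QB)
open Pool.Agent.Y715.Lc (norm_two_odd)
open Pool.Agent.R384 (vl Coc CobOn md md_zero md_cont md_mul vl_sub_one vl_one vl_mul norm_two'
  loc_triv loc_four dec_of_inert add_lt')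
open Pool.Agent.Z384 (exists_cmpQ val_of_norm sqf_odd keyQ DQ)

/-! ### Units modulo four -/

/-- reduction modulo four -/
noncomputable def ph : ℤ_[2]ˣ →* (ZMod (2 ^ 2))ˣ := Units.map (PadicInt.toZModPow 2).toMonoidHom

lemma dvd_iff_ker (z : ℤ_[2]) : (4 : ℤ_[2]) ∣ z ↔ PadicInt.toZModPow 2 z = 0 := by
  have h1 : PadicInt.toZModPow 2 z = 0 ↔ z ∈ RingHom.ker (PadicInt.toZModPow (p := 2) 2) := Iff.rfl
  rw [h1, PadicInt.ker_toZModPow, Ideal.mem_span_singleton]
  have e : ((2 : ℕ) : ℤ_[2]) ^ 2 = 4 := by norm_num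
  rw [e]

lemma ph_one {u : ℤ_[2]ˣ} : ph u = 1 ↔ (4 : ℤ_[2]) ∣ (u : ℤ_[2]) - 1 := by
  rw [dvd_iff_ker, map_sub, map_one, sub_eq_zero, Units.ext_iff]
  rfl

lemma ph_neg {u : ℤ_[2]ˣ} : ph u = -1 ↔ (4 : ℤ_[2]) ∣ (u : ℤ_[2]) + 1 := by
  rw [dvd_iff_ker, map_add, map_one, ← eq_neg_iff_add_eq_zero, Units.ext_iff]
  rfl

lemma sq_four (u : (ZMod (2 ^ 2))ˣ) : u ^ 2 = 1 := by
  revert u
  decide

lemma ph_neg_one : ph (-1) = -1 := by
  rw [ph_neg]
  simp

lemma norm_four {z : ℤ_[2]} (h : (4 : ℤ_[2]) ∣ z) : ‖(z : ℚ_[2])‖ ≤ 1 / 4 := by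
  obtain ⟨w, rfl⟩ := h
  rw [PadicInt.padic_norm_e_of_padicInt, norm_mul]
  have h4 : ‖(4 : ℤ_[2])‖ = 1 / 4 := by
    have e : (4 : ℤ_[2]) = 2 ^ 2 := by norm_num
    have e2 : ‖(2 : ℤ_[2])‖ = 1 / 2 := by
      have := PadicInt.norm_p (p := 2)
      simpa using this
    rw [e, norm_pow, e2]
    norm_num
  rw [h4]
  have := PadicInt.norm_le_one w
  linarith

/-! ### The characters -/

/-- a character which is quadratic modulo four and on the inertia groups of the odd primes -/
structure ChiQ (χ : G →* ℤ_[2]ˣ) (r : QB) : Prop where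
  cont : Continuous χ
  r0 : r ≠ 0
  or : ∀ σ : G, σ r = r ∨ σ r = -r
  one : ∀ σ : G, σ r = r → ph (χ σ) = 1
  neg : ∀ σ : G, σ r = -r → ph (χ σ) = -1
  inert : ∀ (p : ℕ) [Fact p.Prime] (ι : QB →ₐ[ℚ] PadicAlgCl p), p ≠ 2 → ∀ σ ∈ II ι,
    (σ r = r → χ σ = 1) ∧ (σ r = -r → χ σ = -1)

lemma ChiQ.mul {χ χ' : G →* ℤ_[2]ˣ} {r r' : QB} (h : ChiQ χ r) (h' : ChiQ χ' r') :
    ChiQ (χ * χ') (r * r') := by
  have hrr := mul_ne_zero h.r0 h'.r0
  have key : ∀ σ : G, (σ r = r ∧ σ r' = r' ∧ σ (r * r') = r * r') ∨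
      (σ r = r ∧ σ r' = -r' ∧ σ (r * r') = -(r * r')) ∨
      (σ r = -r ∧ σ r' = r' ∧ σ (r * r') = -(r * r')) ∨
      (σ r = -r ∧ σ r' = -r' ∧ σ (r * r') = r * r') := by
    intro σ
    rw [map_mul]
    rcases h.or σ with h1 | h1 <;> rcases h'.or σ with h2 | h2
    · exact Or.inl ⟨h1, h2, by rw [h1, h2]⟩
    · exact Or.inr (Or.inl ⟨h1, h2, by rw [h1, h2]; ring⟩)
    · exact Or.inr (Or.inr (Or.inl ⟨h1, h2, by rw [h1, h2]; ring⟩))
    · exact Or.inr (Or.inr (Or.inr ⟨h1, h2, by rw [h1, h2]; ring⟩))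
  have hap : ∀ σ, (χ * χ') σ = χ σ * χ' σ := fun _ => rfl
  refine ⟨?_, hrr, ?_, ?_, ?_, ?_⟩
  · exact h.cont.mul h'.cont
  · intro σ
    rcases key σ with h1 | h1 | h1 | h1
    · exact Or.inl h1.2.2
    · exact Or.inr h1.2.2
    · exact Or.inr h1.2.2
    · exact Or.inl h1.2.2
  · intro σ hσ
    rw [hap, map_mul]
    rcases key σ with h1 | h1 | h1 | h1
    · rw [h.one σ h1.1, h'.one σ h1.2.1, one_mul]
    · exact absurd (h1.2.2.symm.trans hσ) (ne_neg hrr).symm
    · exact absurd (h1.2.2.symm.trans hσ) (ne_neg hrr).symm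
    · rw [h.neg σ h1.1, h'.neg σ h1.2.1, neg_mul_neg, one_mul]
  · intro σ hσ
    rw [hap, map_mul]
    rcases key σ with h1 | h1 | h1 | h1
    · exact absurd (h1.2.2.symm.trans hσ) (ne_neg hrr)
    · rw [h.one σ h1.1, h'.neg σ h1.2.1, one_mul]
    · rw [h.neg σ h1.1, h'.one σ h1.2.1, mul_one]
    · exact absurd (h1.2.2.symm.trans hσ) (ne_neg hrr)
  · intro p _ ι hp σ hσ
    obtain ⟨a1, a2⟩ := h.inert p ι hp σ hσ
    obtain ⟨b1, b2⟩ := h'.inert p ι hp σ hσ
    rw [hap]
    constructor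
    · intro hs
      rcases key σ with h1 | h1 | h1 | h1
      · rw [a1 h1.1, b1 h1.2.1, one_mul]
      · exact absurd (h1.2.2.symm.trans hs) (ne_neg hrr).symm
      · exact absurd (h1.2.2.symm.trans hs) (ne_neg hrr).symm
      · rw [a2 h1.1, b2 h1.2.1, neg_mul_neg, one_mul]
    · intro hs
      rcases key σ with h1 | h1 | h1 | h1
      · exact absurd (h1.2.2.symm.trans hs) (ne_neg hrr)
      · rw [a1 h1.1, b2 h1.2.1, one_mul]
      · rw [a2 h1.1, b1 h1.2.1, mul_one]
      · exact absurd (h1.2.2.symm.trans hs) (ne_neg hrr)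

variable {χ : G →* ℤ_[2]ˣ} {r : QB}

lemma ChiQ.small (cd : ChiQ χ r) {σ : G} (h : σ r = r) : ‖vl χ σ - 1‖ < 1 / 2 := by
  have h1 := norm_four (ph_one.1 (cd.one σ h))
  have e : (((χ σ : ℤ_[2]) - 1 : ℤ_[2]) : ℚ_[2]) = vl χ σ - 1 := by
    unfold vl
    push_cast
    rfl
  rw [e] at h1
  linarith

lemma ChiQ.big (cd : ChiQ χ r) {σ : G} (h : σ r = -r) : ‖vl χ σ - 1‖ = 1 / 2 := by
  have h1 := norm_four (ph_neg.1 (cd.neg σ h))
  have e : (((χ σ : ℤ_[2]) + 1 : ℤ_[2]) : ℚ_[2]) = vl χ σ + 1 := by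
    unfold vl
    push_cast
    rfl
  rw [e] at h1
  have h2 := vl_sub_one (χ := χ) σ
  refine le_antisymm h2 ?_
  by_contra hcon
  push Not at hcon
  have h3 : ‖(2 : ℚ_[2])‖ < 1 / 2 := by
    have e2 : (2 : ℚ_[2]) = (vl χ σ + 1) + -(vl χ σ - 1) := by ring
    rw [e2]
    exact add_lt' (by linarith) (by rwa [norm_neg])
  rw [Pool.Agent.R384.norm_two'] at h3
  exact lt_irrefl _ h3

lemma ChiQ.iff (cd : ChiQ χ r) (σ : G) : ‖vl χ σ - 1‖ < 1 / 2 ↔ σ r = r := by
  constructor
  · intro h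
    rcases cd.or σ with h1 | h1
    · exact h1
    · rw [cd.big h1] at h
      exact absurd h (lt_irrefl _)
  · exact cd.small

/-- the conclusion of the local analysis: either `t` or `t r` is fixed by the group `D` -/
lemma loc_dich (cd : ChiQ χ r) {c : G → ℚ_[2]} (hc1 : ∀ σ, ‖c σ‖ ≤ 1) {D : Set G}
    (hD : CobOn χ D c) {σ₀ : G} (h0 : σ₀ ∈ D) (h2 : σ₀ r = -r) {t : QB}
    (ht : ∀ σ : G, σ t = t ∨ σ t = -t) (hk : ∀ σ : G, σ t = t ↔ md c σ = 0) :
    (∀ σ ∈ D, σ t = t) ∨ ∀ σ ∈ D, σ (t * r) = t * r := by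
  rcases loc_four hD hc1 h0 (cd.big h2) with h3 | h3
  · left
    intro σ hσ
    exact (hk σ).2 (h3 σ hσ)
  · right
    intro σ hσ
    have h4 := h3 σ hσ
    rw [← hk σ, cd.iff] at h4
    rw [map_mul]
    rcases cd.or σ with h5 | h5
    · rw [h5, h4.2 h5]
    · rcases ht σ with h6 | h6
      · rw [h6, h4.1 h6]
      · rw [h5, h6]
        ring

/-- the criterion: the only factorization `m = a b` with `a = 1` modulo `8`, `a > 0` if `m > 0`, such
that `a` is a square modulo the odd prime divisors of `b` and conversely, is the trivial one -/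
def Crit (m : ℤ) : Prop := ∀ a b : ℤ, m = a * b → a % 8 = 1 → (0 < m → 0 < a) →
  (∀ q : ℕ, q.Prime → q ≠ 2 → (((q : ℤ) ∣ b → IsSquare (a : ZMod q)) ∧
    ((q : ℤ) ∣ a → IsSquare (b : ZMod q)))) → a = 1

lemma crit_unit {m : ℤ} (hm : m = 1 ∨ m = -1) : Crit m := by
  intro a b hab ha _ _
  have h1 : a ∣ 1 := by
    rcases hm with h | h
    · rw [h] at hab; exact ⟨b, hab⟩
    · rw [h] at hab; exact ⟨-b, by linarith⟩
  rcases Int.isUnit_iff.1 (isUnit_of_dvd_one h1) with h | h
  · exact h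
  · rw [h] at ha
    norm_num at ha

/-- the integral representative of a non zero continuous function -/
lemma exists_scale {c : G → ℚ_[2]}
    (hc : Continuous c) {σ₁ : G} (h1 : c σ₁ ≠ 0) :
    ∃ a : ℚ_[2], a ≠ 0 ∧ (∀ σ, ‖a * c σ‖ ≤ 1) ∧ ∃ σ₀, a * c σ₀ = 1 := by
  have : Nonempty G := ⟨σ₁⟩
  obtain ⟨σ₀, -, h0⟩ := isCompact_univ.exists_isMaxOn (Set.univ_nonempty (α := G))
    (hc.norm.continuousOn (s := Set.univ))
  have hmax : ∀ σ, ‖c σ‖ ≤ ‖c σ₀‖ := fun σ => h0 (Set.mem_univ σ)
  have h2 : c σ₀ ≠ 0 := by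
    intro h
    have h3 := hmax σ₁
    rw [h, norm_zero] at h3
    exact h1 (norm_le_zero_iff.1 h3)
  have h3 : 0 < ‖c σ₀‖ := norm_pos_iff.2 h2
  refine ⟨(c σ₀)⁻¹, inv_ne_zero h2, fun σ => ?_, σ₀, inv_mul_cancel₀ h2⟩
  rw [norm_mul, norm_inv, inv_mul_le_iff₀ h3, mul_one]
  exact hmax σ

/-- **The vanishing.** -/
theorem vanish (cd : ChiQ χ r) {m : ℤ} (hr : r ^ 2 = m) (hm : Squarefree m.natAbs) (hC : Crit m)
    {c : G → ℚ_[2]} (hc : Coc χ c)
    (hodd : ∀ (p : ℕ) [Fact p.Prime] (ι : QB →ₐ[ℚ] PadicAlgCl p), p ≠ 2 →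
      CobOn χ (II ι : Set G) c)
    (htwo : ∀ ι : QB →ₐ[ℚ] PadicAlgCl 2, CobOn χ (DD ι : Set G) c) :
    ∃ y : ℚ_[2], ∀ σ, c σ = (vl χ σ - 1) * y := by
  classical
  have hm0 : m ≠ 0 := by
    rintro rfl
    rw [Int.natAbs_zero] at hm
    exact not_squarefree_zero hm
  obtain ⟨ι⟩ := exists_iota 2
  obtain ⟨y, hy⟩ := htwo ι
  refine ⟨y, ?_⟩
  by_contra hcon
  push Not at hcon
  obtain ⟨σ₁, hσ₁⟩ := hcon
  -- the cocycle which vanishes on the decomposition group
  have hc1 : Coc χ (fun σ => 1 * c σ + (vl χ σ - 1) * (-y)) := hc.twist cd.cont 1 (-y)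
  set c₁ : G → ℚ_[2] := fun σ => 1 * c σ + (vl χ σ - 1) * (-y) with hc₁
  obtain ⟨a, ha, hint0, σ₀, hσ₀⟩ := exists_scale hc1.cont (σ₁ := σ₁) (by
    intro h
    apply hσ₁
    rw [hc₁] at h
    linear_combination h)
  have hcc : Coc χ (fun σ => a * c₁ σ + (vl χ σ - 1) * 0) := hc1.twist cd.cont a 0
  set c' : G → ℚ_[2] := fun σ => a * c₁ σ + (vl χ σ - 1) * 0 with hc'
  have hint : ∀ σ, ‖c' σ‖ ≤ 1 := by
    intro σ
    rw [hc']
    simp only [mul_zero, add_zero]
    exact hint0 σ
  have hone : c' σ₀ = 1 := by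
    rw [hc']
    simp only [mul_zero, add_zero]
    exact hσ₀
  have hodd' : ∀ (p : ℕ) [Fact p.Prime] (ι : QB →ₐ[ℚ] PadicAlgCl p), p ≠ 2 →
      CobOn χ (II ι : Set G) c' := fun p _ κ hp => ((hodd p κ hp).twist 1 (-y)).twist a 0
  have hstr' : ∀ σ ∈ DD ι, c' σ = 0 := by
    intro σ hσ
    rw [hc', hc₁]
    simp only [hy σ hσ]
    ring
  have hmd : ∀ σ, c' σ = 0 → md c' σ = 0 := fun σ h => md_zero.2 (by rw [h, norm_zero]; norm_num)
  have key : ∀ σ, md c' σ = 0 := by
    refine keyQ (md c') (md_cont hcc) (md_mul hcc hint) (ι := ι)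
      (fun σ hσ => hmd σ (hstr' σ hσ)) ?_
    intro e he he8 hne t ht
    by_contra hcon
    push Not at hcon
    apply hne
    have he0 : e ≠ 0 := by
      rintro rfl
      rw [Int.natAbs_zero] at he
      exact not_squarefree_zero he
    have ht0 : t ≠ 0 := by
      rintro rfl
      apply he0
      have h1 : (e : QB) = 0 := by rw [← ht]; ring
      exact_mod_cast h1
    have hor := root_or' ht
    -- the character of `t`
    obtain ⟨σ₂, h2⟩ : ∃ σ : G, σ t ≠ t := by
      by_contra hall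
      push Not at hall
      exact hne (eq_one_of_fix he ht hall)
    have h2' : σ₂ t = -t := (hor σ₂).resolve_left h2
    have h01 : ∀ x : ZMod 2, x ≠ 0 → x = 1 := by decide
    have hk2 : md c' σ₂ = 1 := h01 _ fun h => h2 (hcon σ₂ h)
    have hk : ∀ σ : G, σ t = t ↔ md c' σ = 0 := by
      intro σ
      refine ⟨fun h => ?_, hcon σ⟩
      by_contra h3
      have h4 : md c' (σ * σ₂) = 0 := by
        rw [md_mul hcc hint, h01 _ h3, hk2]
        decide
      have h5 := hcon _ h4
      rw [AlgEquiv.mul_apply, h2', map_neg, h] at h5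
      exact ne_neg ht0 h5.symm
    -- the prime divisors of `e` divide `m`
    have hpm : ∀ p : ℕ, p.Prime → p ∣ e.natAbs → p ≠ 2 ∧ p ∣ m.natAbs := by
      intro p hp hpe
      have hp2 : p ≠ 2 := by
        rintro rfl
        omega
      refine ⟨hp2, ?_⟩
      by_contra hpm
      have : Fact p.Prime := ⟨hp⟩
      obtain ⟨κ⟩ := exists_iota p
      refine not_dvd_of_fix (ι := κ) he ht (fun σ hσ => (hk σ).2 ?_) hpe
      refine loc_triv (hodd' p κ hp2) (fun σ hσ => ?_) σ hσ
      -- `r` is fixed by the inertia group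
      have hrσ : σ r = r := by
        rcases cd.or σ with h | h
        · exact h
        · exfalso
          obtain ⟨τ, hτ, hin⟩ := hσ
          have h3 : (κ r) ^ 2 = (m : PadicAlgCl p) := by rw [← map_pow, hr, map_intCast]
          have h4 : ‖(m : PadicAlgCl p)‖ = 1 := by
            have h5 := Pool.Agent.W327.RK.norm_nat (p := p) hpm
            rcases Int.natAbs_eq m with h6 | h6
            · have h7 : (m : PadicAlgCl p) = ((m.natAbs : ℕ) : PadicAlgCl p) := by
                conv_lhs => rw [h6]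
                exact Int.cast_natCast _
              rw [h7, h5]
            · have h7 : (m : PadicAlgCl p) = -((m.natAbs : ℕ) : PadicAlgCl p) := by
                conv_lhs => rw [h6]
                rw [Int.cast_neg, Int.cast_natCast]
              rw [h7, norm_neg, h5]
          have h5 : ‖κ r‖ = 1 := by
            rw [← h3, norm_pow] at h4
            exact (pow_eq_one_iff_of_nonneg (norm_nonneg _) two_ne_zero).1 h4
          have h6 := hin (κ r) h5.le
          rw [hτ, h, map_neg] at h6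
          have e2 : -κ r - κ r = -(2 * κ r) := by ring
          rw [e2, norm_neg, norm_mul, norm_two_odd hp2, h5, one_mul] at h6
          exact lt_irrefl _ h6
      unfold vl
      rw [(cd.inert p κ hp2 σ hσ).1 hrσ]
      simp
    have hem : e ∣ m := by
      rw [← Int.natAbs_dvd_natAbs, ← Nat.prod_primeFactors_of_squarefree he,
        ← Nat.prod_primeFactors_of_squarefree hm]
      apply Finset.prod_dvd_prod_of_subset
      intro p hp
      have hpp := Nat.prime_of_mem_primeFactors hp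
      exact Nat.mem_primeFactors.2 ⟨hpp, (hpm p hpp (Nat.dvd_of_mem_primeFactors hp)).2,
        Int.natAbs_ne_zero.2 hm0⟩
    obtain ⟨b, hb⟩ := hem
    have hb0 : b ≠ 0 := by
      rintro rfl
      exact hm0 (by rw [hb, mul_zero])
    -- coprimality
    have hcop : ∀ q : ℕ, q.Prime → (q : ℤ) ∣ e → ¬ (q : ℤ) ∣ b := by
      intro q hq h1 h2
      have h3 : (q : ℤ) * q ∣ m := by
        rw [hb]
        exact mul_dvd_mul h1 h2
      have h4 : q * q ∣ m.natAbs := by
        rw [← Int.natAbs_dvd_natAbs] at h3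
        simpa [Int.natAbs_mul] using h3
      exact hq.not_isUnit (hm q h4)
    refine hC e b hb he8 ?_ ?_
    · -- the sign
      intro hmpos
      by_contra hneg
      have he' : (e : ℚ) < 0 := by
        have : e < 0 := lt_of_le_of_ne (not_lt.1 hneg) he0
        exact_mod_cast this
      obtain ⟨cc, hcc2, hccr⟩ := exists_cc
      have h3 : cc r = r := (hccr r m (by rw [hr]; simp)).1 (by exact_mod_cast hmpos)
      have h4 : cc t = -t := (hccr t e (by rw [ht]; simp)).2 he'
      have h5 : vl χ cc = 1 := by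
        have h6 := cd.one cc h3
        have h7 : χ cc * χ cc = 1 := by rw [← map_mul, hcc2, map_one]
        have h8 : ((χ cc : ℤ_[2])) * (χ cc : ℤ_[2]) = 1 := by
          rw [← Units.val_mul, h7, Units.val_one]
        have h9 : ((χ cc : ℤ_[2]) - 1) * ((χ cc : ℤ_[2]) + 1) = 0 := by linear_combination h8
        rcases mul_eq_zero.1 h9 with h10 | h10
        · unfold vl
          rw [sub_eq_zero.1 h10]
          simp
        · exfalso
          have h11 : χ cc = -1 := Units.ext (by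
            rw [Units.val_neg, Units.val_one]
            linear_combination h10)
          rw [h11, ph_neg_one] at h6
          exact absurd h6 (by decide)
      have h6 := hcc.mul cc cc
      rw [hcc2, hcc.one, h5] at h6
      have h7 : c' cc = 0 := by
        have h8 : (2 : ℚ_[2]) * c' cc = 0 := by linear_combination -h6
        exact (mul_eq_zero.1 h8).resolve_left two_ne_zero
      have h8 := (hk cc).2 (hmd cc h7)
      rw [h4] at h8
      exact ne_neg ht0 h8.symm
    · -- the local conditions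
      intro q hq hq2
      have : Fact q.Prime := ⟨hq⟩
      obtain ⟨κ⟩ := exists_iota q
      have main : (q : ℤ) ∣ m → (¬ (q : ℤ) ∣ e ∧ IsSquare (e : ZMod q)) ∨
          ((q : ℤ) ∣ e ∧ IsSquare (b : ZMod q)) := by
        intro hqm
        have hqm' : q ∣ m.natAbs := Int.natCast_dvd.1 hqm
        obtain ⟨σ₃, h3, h4⟩ : ∃ σ ∈ II κ, σ r = -r := by
          by_contra hall
          push Not at hall
          refine not_dvd_of_fix (ι := κ) hm hr (fun σ hσ => ?_) hqm'
          exact (cd.or σ).resolve_right (hall σ hσ)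
        have hχ : vl χ σ₃ = -1 := by
          unfold vl
          rw [(cd.inert q κ hq2 σ₃ h3).2 h4]
          simp
        have hD : CobOn χ (DD κ : Set G) c' :=
          dec_of_inert hcc (hodd' q κ hq2) h3 hχ fun τ hτ => conj_mem h3 hτ
        rcases loc_dich cd hint hD (II_le h3) h4 hor hk with h | h
        · left
          refine ⟨fun h5 => ?_, sq_of_fix ht h⟩
          exact not_dvd_of_fix (ι := κ) he ht (fun σ hσ => h σ (II_le hσ)) (Int.natCast_dvd.1 h5)
        · right
          have hsr : (t * r) ^ 2 = ((e * m : ℤ) : QB) := by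
            rw [mul_pow, ht, hr]
            push_cast
            rfl
          have h5 : (q : ℤ) ∣ e := by
            by_contra h6
            have h7 := even_val (ι := κ) (mul_ne_zero he0 hm0) hsr fun σ hσ => h σ (II_le hσ)
            have h8 : padicValRat q ((e * m : ℤ) : ℚ) = 1 := by
              have h9 : padicValRat q ((e * m : ℤ) : ℚ) = padicValInt q (e * m) := by
                rw [padicValRat.of_int]
              rw [h9, padicValInt.mul he0 hm0, padicValInt.eq_zero_of_not_dvd h6, zero_add]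
              have h10 : padicValNat q m.natAbs = 1 := by
                have h7 : 1 ≤ padicValNat q m.natAbs :=
                  one_le_padicValNat_of_dvd (Int.natAbs_ne_zero.2 hm0) hqm'
                have h8 : padicValNat q m.natAbs < 2 := by
                  by_contra h9
                  push Not at h9
                  have h10 : q ^ 2 ∣ m.natAbs := (pow_dvd_pow q h9).trans pow_padicValNat_dvd
                  rw [pow_two] at h10
                  exact hq.not_isUnit (hm q h10)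
                omega
              show ((padicValNat q m.natAbs : ℕ) : ℤ) = 1
              rw [h10]
              rfl
            rw [h8] at h7
            exact absurd h7 (by decide)
          refine ⟨h5, ?_⟩
          have he0' : (e : QB) ≠ 0 := by exact_mod_cast he0
          refine sq_of_fix (ι := κ) (t := t * r / e) ?_ fun σ hσ => ?_
          · rw [div_pow, hsr, hb, div_eq_iff (pow_ne_zero _ he0')]
            push_cast
            ring
          · rw [map_div₀, h σ hσ, map_intCast]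
      constructor
      · intro h3
        have hqm : (q : ℤ) ∣ m := by rw [hb]; exact h3.mul_left _
        rcases main hqm with h | h
        · exact h.2
        · exact absurd h3 (hcop q hq h.1)
      · intro h3
        have hqm : (q : ℤ) ∣ m := by rw [hb]; exact h3.mul_right _
        rcases main hqm with h | h
        · exact absurd h3 h.1
        · exact h.2
  have h5 : ‖c' σ₀‖ < 1 := md_zero.1 (key σ₀)
  rw [hone, norm_one] at h5
  exact lt_irrefl _ h5

end Pool.Agent.N848.Q
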