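import Pool.Agent.N848.Q.B

/-!
# Descent from quadratic and biquadratic fields, the cyclotomic character
-/

set_option autoImplicit false
set_option linter.unusedSectionVars false

namespace Pool.Agent.N848.Q

open Pool.Agent.Y715.Red Pool.Agent.Y715.Nr Pool.Agent.W237.RK
open Pool.Agent.Y715.Gi (QB)
open Pool.Agent.Y715.Lc (norm_two_odd)
open Pool.Agent.R384 (vl Coc CobOn CocOn sgc kr mem_kr cor cor_cont cor_mul cor_loc conj_kr
  vl_sgc_pos vl_sgc_neg vl_inv md md_zero md_cont md_mul vl_sub_one vl_one vl_mul norm_two'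
  loc_triv loc_four dec_of_inert add_lt')

/-! ### The step -/

/-- the Selmer group over the field fixed by `H` is zero -/
def VanOn (χ : G →* ℤ_[2]ˣ) (H : Subgroup G) : Prop :=
  ∀ c : G → ℚ_[2], CocOn χ H c →
    (∀ (p : ℕ) [Fact p.Prime] (ι : QB →ₐ[ℚ] PadicAlgCl p), p ≠ 2 →
      ∃ y : ℚ_[2], ∀ σ ∈ II ι, σ ∈ H → c σ = (vl χ σ - 1) * y) →
    (∀ ι : QB →ₐ[ℚ] PadicAlgCl 2, ∃ y : ℚ_[2], ∀ σ ∈ DD ι, σ ∈ H → c σ = (vl χ σ - 1) * y) →
    ∃ y : ℚ_[2], ∀ σ ∈ H, c σ = (vl χ σ - 1) * y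

lemma vl_conj {χ : G →* ℤ_[2]ˣ} (t g : G) :
    vl χ (t⁻¹ * g * t) = vl χ g := by
  rw [vl_mul, vl_mul]
  linear_combination vl χ g * vl_inv (χ := χ) t

/-- **The step.** -/
theorem VanOn.step {χ : G →* ℤ_[2]ˣ} {ε : G →* ℤˣ} {G' : Subgroup G}
    (hop : ∀ u : ℤˣ, IsOpen {g | ε g = u}) (h1 : VanOn χ G')
    (h2 : VanOn (χ * sgc ε) G') : VanOn χ (kr ε G') := by
  by_cases hG : ∃ t ∈ G', ε t = -1
  · obtain ⟨t, ht, hε⟩ := hG
    intro c hc hodd hstr
    have hc' : ∀ σ ∈ kr ε G', ∀ τ ∈ kr ε G', c (σ * τ) = c σ + vl (χ * sgc ε) σ * c τ := by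
      intro σ hσ τ hτ
      rw [vl_sgc_pos (mem_kr.1 hσ).2]
      exact hc.mul σ hσ τ hτ
    obtain ⟨y₁, hy₁⟩ := h1 (cor χ ε t c) ⟨cor_cont ht hε hop hc.cont,
        fun σ hσ τ hτ => cor_mul ht hε hc.mul hσ hτ⟩ (by
      intro p _ ι hp
      obtain ⟨y, hy⟩ := hodd p ι hp
      obtain ⟨y', hy'⟩ := hodd p (cι ι t) hp
      exact cor_loc (I := II ι) ht hε hc.mul (fun σ h3 h4 => hy σ h3 h4) (fun σ h3 h4 => by
        rw [hy' _ (II_conj h3) (conj_kr ht hε h4), vl_conj])) (by
      intro ι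
      obtain ⟨y, hy⟩ := hstr ι
      obtain ⟨y', hy'⟩ := hstr (cι ι t)
      exact cor_loc (I := DD ι) ht hε hc.mul (fun σ h3 h4 => hy σ h3 h4) (fun σ h3 h4 => by
        rw [hy' _ (DD_conj h3) (conj_kr ht hε h4), vl_conj]))
    obtain ⟨y₂, hy₂⟩ := h2 (cor (χ * sgc ε) ε t c) ⟨cor_cont ht hε hop hc.cont,
        fun σ hσ τ hτ => cor_mul ht hε hc' hσ hτ⟩ (by
      intro p _ ι hp
      obtain ⟨y, hy⟩ := hodd p ι hp
      obtain ⟨y', hy'⟩ := hodd p (cι ι t) hp
      exact cor_loc (I := II ι) ht hε hc' (fun σ h3 h4 => by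
        rw [vl_sgc_pos (mem_kr.1 h4).2]
        exact hy σ h3 h4) (fun σ h3 h4 => by
        rw [vl_sgc_pos (mem_kr.1 h4).2, hy' _ (II_conj h3) (conj_kr ht hε h4), vl_conj])) (by
      intro ι
      obtain ⟨y, hy⟩ := hstr ι
      obtain ⟨y', hy'⟩ := hstr (cι ι t)
      exact cor_loc (I := DD ι) ht hε hc' (fun σ h3 h4 => by
        rw [vl_sgc_pos (mem_kr.1 h4).2]
        exact hy σ h3 h4) (fun σ h3 h4 => by
        rw [vl_sgc_pos (mem_kr.1 h4).2, hy' _ (DD_conj h3) (conj_kr ht hε h4), vl_conj]))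
    refine ⟨(y₁ + y₂) / 2, fun σ hσ => ?_⟩
    obtain ⟨g1, g2⟩ := mem_kr.1 hσ
    have e1 := hy₁ σ g1
    have e2 := hy₂ σ g1
    unfold cor at e1 e2
    rw [if_pos g2] at e1 e2
    rw [vl_sgc_neg hε, vl_sgc_pos g2] at e2
    have h2 : (2 : ℚ_[2]) ≠ 0 := two_ne_zero
    field_simp
    linear_combination e1 + e2
  · push Not at hG
    have e : kr ε G' = G' := by
      ext σ
      constructor
      · exact fun h => (mem_kr.1 h).1
      · intro h
        refine mem_kr.2 ⟨h, ?_⟩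
        rcases Int.units_eq_one_or (ε σ) with h3 | h3
        · exact h3
        · exact absurd h3 (hG σ h)
    rwa [e]

/-! ### The characters of order two -/

section sign

open scoped Classical

variable {s : QB} (hs0 : s ≠ 0) (hs : ∀ σ : G, σ s = s ∨ σ s = -s)

/-- the character of `ℚ(s)`, `s ^ 2 ∈ ℚ` -/
noncomputable def es : G →* ℤˣ where
  toFun σ := if σ s = s then 1 else -1
  map_one' := if_pos rfl
  map_mul' σ τ := by
    have hne : -s ≠ s := fun h => ne_neg hs0 h.symm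
    show (if (σ * τ) s = s then (1 : ℤˣ) else -1) =
      (if σ s = s then 1 else -1) * (if τ s = s then 1 else -1)
    rw [AlgEquiv.mul_apply]
    rcases hs σ with h1 | h1 <;> rcases hs τ with h2 | h2
    · simp [h1, h2]
    · rw [h2, map_neg, h1, if_neg hne, if_pos rfl, one_mul]
    · rw [h2, h1, if_pos rfl, mul_one]
    · rw [h2, map_neg, h1, neg_neg, if_pos rfl, if_neg hne]
      rfl

lemma es_one {σ : G} : es hs0 hs σ = 1 ↔ σ s = s := by
  show (if σ s = s then (1 : ℤˣ) else -1) = 1 ↔ _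
  split_ifs with h
  · simp [h]
  · simp [h]

lemma es_neg {σ : G} : es hs0 hs σ = -1 ↔ σ s = -s := by
  constructor
  · intro h
    rcases hs σ with h1 | h1
    · rw [(es_one hs0 hs).2 h1] at h
      exact absurd h (by decide)
    · exact h1
  · intro h
    rcases Int.units_eq_one_or (es hs0 hs σ) with h1 | h1
    · rw [es_one, h] at h1
      exact absurd h1.symm (ne_neg hs0)
    · exact h1

lemma es_open (u : ℤˣ) : IsOpen {g : G | es hs0 hs g = u} := by
  have ha : IsLocallyConstant fun τ : G => τ s :=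
    Pool.Agent.W309.TD.locConst_apply (K := ℚ) (Ω := QB) s
  rcases Int.units_eq_one_or u with rfl | rfl
  · have e : {g : G | es hs0 hs g = 1} = {g : G | g s = s} := by
      ext g
      exact es_one hs0 hs
    rw [e]
    exact ha.isOpen_fiber s
  · have e : {g : G | es hs0 hs g = -1} = {g : G | g s = -s} := by
      ext g
      exact es_neg hs0 hs
    rw [e]
    exact ha.isOpen_fiber (-s)

lemma sgc_one {ε : G →* ℤˣ} {σ : G} (h : ε σ = 1) : sgc ε σ = 1 := by
  unfold sgc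
  rw [MonoidHom.comp_apply, h, map_one]

lemma sgc_neg {ε : G →* ℤˣ} {σ : G} (h : ε σ = -1) : sgc ε σ = -1 := by
  unfold sgc
  rw [MonoidHom.comp_apply, h]
  ext
  simp

lemma cont_sgc {ε : G →* ℤˣ} (hop : ∀ u : ℤˣ, IsOpen {g | ε g = u}) : Continuous (sgc ε) := by
  have h1 : IsLocallyConstant (fun g => ε g) := (IsLocallyConstant.iff_isOpen_fiber).2 fun u => hop u
  have h2 : IsLocallyConstant (fun g => sgc ε g) :=
    h1.comp (fun u => (Units.map (Int.castRingHom ℤ_[2]).toMonoidHom) u)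
  exact h2.continuous

theorem chi_sgc : ChiQ (sgc (es hs0 hs)) s where
  cont := cont_sgc (es_open hs0 hs)
  r0 := hs0
  or := hs
  one σ h := by rw [sgc_one ((es_one hs0 hs).2 h), map_one]
  neg σ h := by rw [sgc_neg ((es_neg hs0 hs).2 h), ph_neg_one]
  inert p _ ι hp σ _ := ⟨fun h => sgc_one ((es_one hs0 hs).2 h),
    fun h => sgc_neg ((es_neg hs0 hs).2 h)⟩

end sign

/-! ### The cyclotomic character -/

/-- the cyclotomic character -/
noncomputable def cyc : G →* ℤ_[2]ˣ :=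
  (cyclotomicCharacter QB 2).comp (MulSemiringAction.toRingAut G QB)

lemma cyc_cont : Continuous cyc := cyclotomicCharacter.continuous 2 ℚ QB

instance enough (i : ℕ) : HasEnoughRootsOfUnity QB (2 ^ i) := by
  have : NeZero ((2 ^ i : ℕ) : QB) := ⟨by push_cast; exact pow_ne_zero _ two_ne_zero⟩
  infer_instance

lemma cyc_spec (σ : G) {n : ℕ} {t : QB} (ht : t ^ 2 ^ n = 1) :
    σ t = t ^ (((cyc σ : ℤ_[2]ˣ) : ℤ_[2]).toZModPow n).val :=
  cyclotomicCharacter.spec (L := QB) 2 (n := n) (MulSemiringAction.toRingAut G QB σ) t ht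

lemma cyc_four {I : QB} (hI : I ^ 2 = -1) (σ : G) :
    (σ I = I → ph (cyc σ) = 1) ∧ (σ I = -I → ph (cyc σ) = -1) := by
  have hI0 : I ≠ 0 := by
    rintro rfl
    norm_num at hI
  have h4 : I ^ 2 ^ 2 = 1 := by
    have : I ^ 2 ^ 2 = (I ^ 2) ^ 2 := by ring
    rw [this, hI]
    norm_num
  have h1 := cyc_spec σ h4
  have hu : IsUnit (((cyc σ : ℤ_[2]ˣ) : ℤ_[2]).toZModPow 2) := (cyc σ).isUnit.map _
  have h01 : ∀ z : ZMod (2 ^ 2), IsUnit z → z = 1 ∨ z = -1 := by decide
  have hne : I ≠ -I := ne_neg hI0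
  rw [ph_one, ph_neg]
  rcases h01 _ hu with h2 | h2
  · constructor
    · intro _
      rw [dvd_iff_ker, map_sub, map_one, h2, sub_self]
    · intro h3
      exfalso
      rw [h2] at h1
      have : ((1 : ZMod (2 ^ 2))).val = 1 := by decide
      rw [this, pow_one, h3] at h1
      exact hne h1.symm
  · constructor
    · intro h3
      exfalso
      rw [h2] at h1
      have : ((-1 : ZMod (2 ^ 2))).val = 3 := by decide
      rw [this, h3] at h1
      have h5 : I ^ 3 = -I := by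
        have : I ^ 3 = I ^ 2 * I := by ring
        rw [this, hI]
        ring
      rw [h5] at h1
      exact hne h1
    · intro _
      rw [dvd_iff_ker, map_add, map_one, h2, neg_add_cancel]

/-- the roots of unity are fixed by the inertia groups of the odd primes -/
lemma root_fix {p : ℕ} [Fact p.Prime] (hp : p ≠ 2) {τ : Au p} (hin : Inert τ) (n : ℕ) :
    ∀ z : PadicAlgCl p, z ^ 2 ^ n = 1 → τ z = z := by
  intro z hz
  have hz0 : z ≠ 0 := by
    rintro rfl
    rw [zero_pow (by positivity)] at hz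
    exact zero_ne_one hz
  have hz1 : ‖z‖ = 1 := by
    have h1 := congrArg norm hz
    rw [norm_pow, norm_one] at h1
    exact (pow_eq_one_iff_of_nonneg (norm_nonneg _) (by positivity)).1 h1
  set u := τ z / z with hu
  have hu1 : u ^ 2 ^ n = 1 := by
    rw [hu, div_pow, ← map_pow, hz, map_one, div_one]
  have hu2 : ‖u - 1‖ < 1 := by
    have h1 := hin z hz1.le
    have e : u - 1 = (τ z - z) / z := by rw [hu]; field_simp
    rw [e, norm_div, hz1, div_one]
    exact h1
  have key : ∀ m : ℕ, u ^ 2 ^ m = 1 → u = 1 := by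
    intro m
    induction m with
    | zero =>
      intro h
      simpa using h
    | succ m ih =>
      intro h
      apply ih
      have h1 : (u ^ 2 ^ m) ^ 2 = 1 := by rw [← pow_mul, ← pow_succ, h]
      rcases sq_eq_one_iff.1 h1 with h2 | h2
      · exact h2
      · exfalso
        have h3 : ‖u ^ 2 ^ m - 1‖ < 1 := by
          have hun : ‖u‖ = 1 := by rw [hu, norm_div, nrm, hz1, div_one]
          have h4 : u ^ 2 ^ m - 1 = (u - 1) * ∑ i ∈ Finset.range (2 ^ m), u ^ i := by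
            rw [mul_comm, geom_sum_mul]
          rw [h4, norm_mul]
          have h5 : ‖∑ i ∈ Finset.range (2 ^ m), u ^ i‖ ≤ 1 := by
            apply IsUltrametricDist.norm_sum_le_of_forall_le_of_nonneg (by norm_num)
            intro i _
            rw [norm_pow, hun, one_pow]
          calc ‖u - 1‖ * _ ≤ ‖u - 1‖ * 1 := mul_le_mul_of_nonneg_left h5 (norm_nonneg _)
            _ < 1 := by rwa [mul_one]
        rw [h2] at h3
        have e : (-1 - 1 : PadicAlgCl p) = -2 := by norm_num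
        rw [e, norm_neg, norm_two_odd hp] at h3
        exact lt_irrefl _ h3
  have h1 := key n hu1
  rw [hu, div_eq_one_iff_eq hz0] at h1
  exact h1

lemma cyc_inert {p : ℕ} [Fact p.Prime] (hp : p ≠ 2) {ι : QB →ₐ[ℚ] PadicAlgCl p} {σ : G}
    (hσ : σ ∈ II ι) : cyc σ = 1 := by
  obtain ⟨τ, hτ, hin⟩ := hσ
  apply Units.ext
  apply PadicInt.ext_of_toZModPow.mp
  intro n
  obtain ⟨ζ, hζ⟩ := HasEnoughRootsOfUnity.exists_primitiveRoot QB (2 ^ n)
  have h1 : σ ζ = ζ := by
    apply ι.injective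
    show ι (σ ζ) = ι ζ
    rw [← hτ]
    exact root_fix hp hin n (ι ζ) (by rw [← map_pow, hζ.pow_eq_one, map_one])
  have h2 := cyc_spec σ hζ.pow_eq_one
  rw [h1] at h2
  rw [Units.val_one, map_one]
  rcases Nat.eq_zero_or_pos n with rfl | hn
  · have : Subsingleton (ZMod (2 ^ 0)) := by rw [pow_zero]; infer_instance
    exact Subsingleton.elim _ _
  have h3 : (1 : ℕ) < 2 ^ n := Nat.one_lt_two_pow (by omega)
  have h4 : (((cyc σ : ℤ_[2]ˣ) : ℤ_[2]).toZModPow n).val = 1 := by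
    apply hζ.pow_inj (ZMod.val_lt _) h3
    rw [← h2, pow_one]
  have : Fact (1 < 2 ^ n) := ⟨h3⟩
  apply ZMod.val_injective
  rw [h4, ZMod.val_one]

lemma inert_I {I : QB} (hI : I ^ 2 = -1) {p : ℕ} [Fact p.Prime] (hp : p ≠ 2)
    {ι : QB →ₐ[ℚ] PadicAlgCl p} {σ : G} (hσ : σ ∈ II ι) : σ I = I := by
  obtain ⟨τ, hτ, hin⟩ := hσ
  apply ι.injective
  show ι (σ I) = ι I
  rw [← hτ]
  refine root_fix hp hin 2 (ι I) ?_
  rw [← map_pow]
  have : I ^ 2 ^ 2 = (I ^ 2) ^ 2 := by ring
  rw [this, hI]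
  norm_num

/-- the powers of the cyclotomic character -/
theorem chi_cyc_even {k : ℤ} (hk : Even k) : ChiQ (cyc ^ k) 1 where
  cont := cyc_cont.zpow k
  r0 := one_ne_zero
  or σ := Or.inl (map_one σ)
  one σ _ := by
    obtain ⟨l, rfl⟩ := hk
    show ph ((cyc σ) ^ (l + l)) = 1
    rw [map_zpow, ← two_mul, zpow_mul]
    norm_cast
    rw [sq_four, one_zpow]
  neg σ h := by
    rw [map_one] at h
    exact absurd h (ne_neg one_ne_zero)
  inert p _ ι hp σ hσ := by
    constructor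
    · intro _
      show (cyc σ) ^ k = 1
      rw [cyc_inert hp hσ, one_zpow]
    · intro h
      rw [map_one] at h
      exact absurd h (ne_neg one_ne_zero)

theorem chi_cyc_odd {I : QB} (hI : I ^ 2 = -1) {k : ℤ} (hk : Odd k) : ChiQ (cyc ^ k) I := by
  have hI0 : I ≠ 0 := by
    rintro rfl
    norm_num at hI
  have hph : ∀ σ, ph ((cyc ^ k : G →* ℤ_[2]ˣ) σ) = ph (cyc σ) := by
    intro σ
    obtain ⟨l, rfl⟩ := hk
    show ph ((cyc σ) ^ (2 * l + 1)) = _
    rw [map_zpow, zpow_add, zpow_mul, zpow_one]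
    norm_cast
    rw [sq_four, one_zpow, one_mul]
  refine ⟨cyc_cont.zpow k, hI0, root_or' (a := -1) (by rw [hI]; simp), ?_, ?_, ?_⟩
  · intro σ h
    rw [hph, (cyc_four hI σ).1 h]
  · intro σ h
    rw [hph, (cyc_four hI σ).2 h]
  · intro p _ ι hp σ hσ
    constructor
    · intro _
      show (cyc σ) ^ k = 1
      rw [cyc_inert hp hσ, one_zpow]
    · intro h
      rw [inert_I hI hp hσ] at h
      exact absurd h (ne_neg hI0)

/-- a unit of `ℤ_2` which is not `± 1` has infinite order -/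
lemma inf_order {u : ℤ_[2]ˣ} (h1 : u ≠ 1) (h2 : u ≠ -1) {k : ℤ} (hk : k ≠ 0) :
    u ^ (2 * k) ≠ 1 := by
  -- if `v ^ n = 1` with `v = 1` modulo four then `v = 1`
  have key : ∀ v : ℤ_[2], (4 : ℤ_[2]) ∣ v - 1 → ∀ n : ℕ, 0 < n → v ^ n = 1 → v = 1 := by
    intro v hv n
    induction n using Nat.strong_induction_on generalizing v with
    | _ n ih =>
    intro hn hvn
    rcases Nat.even_or_odd n with ⟨l, hl⟩ | ho
    · have h3 : (v ^ l) ^ 2 = 1 := by rw [← pow_mul, mul_two, ← hl, hvn]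
      have hd : (4 : ℤ_[2]) ∣ v ^ l - 1 := hv.trans (by simpa using sub_dvd_pow_sub_pow v 1 l)
      rcases sq_eq_one_iff.1 h3 with h4 | h4
      · exact ih l (by omega) v hv (by omega) h4
      · exfalso
        rw [h4] at hd
        have h5 : (4 : ℤ_[2]) ∣ -2 := by
          have : (-1 - 1 : ℤ_[2]) = -2 := by norm_num
          rwa [this] at hd
        obtain ⟨t, ht⟩ := h5
        have h6 : (2 : ℤ_[2]) * (2 * t + 1) = 0 := by linear_combination -ht
        rcases mul_eq_zero.1 h6 with h7 | h7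
        · exact two_ne_zero h7
        · have h8 : ‖(2 * t : ℤ_[2])‖ < 1 := by
            rw [norm_mul]
            have h9 : ‖(2 : ℤ_[2])‖ = 1 / 2 := by
              have := PadicInt.norm_p (p := 2)
              simpa using this
            rw [h9]
            have := PadicInt.norm_le_one t
            linarith
          have h9 : (2 * t : ℤ_[2]) = -1 := by linear_combination h7
          rw [h9, norm_neg, norm_one] at h8
          exact lt_irrefl _ h8
    · -- odd exponent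
      have h3 : (v - 1) * ∑ i ∈ Finset.range n, v ^ i = 0 := by
        rw [mul_comm, geom_sum_mul, hvn, sub_self]
      rcases mul_eq_zero.1 h3 with h4 | h4
      · exact sub_eq_zero.1 h4
      · exfalso
        have h5 : (2 : ℤ_[2]) ∣ (∑ i ∈ Finset.range n, v ^ i) - n := by
          have e : (∑ i ∈ Finset.range n, v ^ i) - (n : ℤ_[2]) =
              ∑ i ∈ Finset.range n, (v ^ i - 1) := by
            rw [Finset.sum_sub_distrib]
            simp
          rw [e]
          apply Finset.dvd_sum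
          intro i _
          have h6 : (2 : ℤ_[2]) ∣ 4 := ⟨2, by norm_num⟩
          exact (h6.trans hv).trans (by simpa using sub_dvd_pow_sub_pow v 1 i)
        rw [h4, zero_sub, dvd_neg] at h5
        obtain ⟨l, hl⟩ := ho
        have h6 : (2 : ℤ_[2]) ∣ 1 := by
          have e : (1 : ℤ_[2]) = (n : ℤ_[2]) - 2 * l := by rw [hl]; push_cast; ring
          rw [e]
          exact dvd_sub h5 (dvd_mul_right _ _)
        obtain ⟨t, ht⟩ := h6
        have h8 : ‖(2 * t : ℤ_[2])‖ < 1 := by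
          rw [norm_mul]
          have h9 : ‖(2 : ℤ_[2])‖ = 1 / 2 := by
            have := PadicInt.norm_p (p := 2)
            simpa using this
          rw [h9]
          have := PadicInt.norm_le_one t
          linarith
        rw [← ht, norm_one] at h8
        exact lt_irrefl _ h8
  -- the square is one modulo four
  have hsq : (4 : ℤ_[2]) ∣ ((u ^ 2 : ℤ_[2]ˣ) : ℤ_[2]) - 1 := by
    rw [← ph_one, map_pow, sq_four]
  intro h
  have h3 : (u ^ 2) ^ k = 1 := by rw [← zpow_natCast, ← zpow_mul]; exact_mod_cast h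
  have h4 : (u ^ 2) ^ k.natAbs = 1 := by
    rcases Int.natAbs_eq k with h5 | h5
    · rw [← zpow_natCast, ← h5, h3]
    · rw [← zpow_natCast, show ((k.natAbs : ℕ) : ℤ) = -k by omega, zpow_neg, h3, inv_one]
  have h5 : ((u ^ 2 : ℤ_[2]ˣ) : ℤ_[2]) = 1 := by
    apply key _ hsq k.natAbs (Int.natAbs_pos.2 hk)
    rw [← Units.val_pow_eq_pow_val, h4, Units.val_one]
  have h6 : (u : ℤ_[2]) ^ 2 = 1 := by
    rw [← Units.val_pow_eq_pow_val, h5]
  rcases sq_eq_one_iff.1 h6 with h7 | h7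
  · exact h1 (Units.ext h7)
  · exact h2 (Units.ext h7)

/-- the powers of the cyclotomic character are not trivial on the squares of the elements of the
decomposition groups above two -/
theorem exists_cyc_ne (ι : QB →ₐ[ℚ] PadicAlgCl 2) {k : ℤ} (hk : k ≠ 0) :
    ∃ σ ∈ DD ι, (cyc (σ * σ)) ^ k ≠ 1 := by
  obtain ⟨z, hz⟩ : ∃ z : QB, z ^ 4 = -1 := IsAlgClosed.exists_pow_nat_eq _ (by norm_num)
  have hz0 : z ≠ 0 := by
    rintro rfl
    norm_num at hz
  have h2 : (z + z⁻¹) ^ 2 = ((2 : ℤ) : QB) := by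
    have e : (z + z⁻¹) ^ 2 * z ^ 2 = 2 * z ^ 2 := by
      have : (z + z⁻¹) * z = z ^ 2 + 1 := by field_simp
      calc (z + z⁻¹) ^ 2 * z ^ 2 = ((z + z⁻¹) * z) ^ 2 := by ring
        _ = 2 * z ^ 2 := by rw [this]; linear_combination hz
    push_cast
    exact mul_right_cancel₀ (pow_ne_zero 2 hz0) e
  obtain ⟨σ, hσ, hne⟩ : ∃ σ ∈ DD ι, σ (z + z⁻¹) ≠ z + z⁻¹ := by
    by_contra hcon
    push Not at hcon
    refine not_dvd_of_fix (ι := ι) (e := 2) (by
      show Squarefree 2
      exact Nat.prime_two.prime.squarefree) h2 (fun σ hσ => hcon σ (II_le hσ)) ?_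
    show 2 ∣ 2
    exact dvd_rfl
  have h8 : z ^ 2 ^ 3 = 1 := by
    have : z ^ 2 ^ 3 = (z ^ 4) ^ 2 := by ring
    rw [this, hz]
    norm_num
  have h1 := cyc_spec σ h8
  refine ⟨σ, hσ, ?_⟩
  rw [map_mul]
  have e : (cyc σ * cyc σ) ^ k = (cyc σ) ^ (2 * k) := by
    rw [zpow_mul, zpow_ofNat, pow_two]
  rw [e]
  refine inf_order ?_ ?_ hk
  · intro h2
    apply hne
    rw [h2, Units.val_one, map_one] at h1
    have : ((1 : ZMod (2 ^ 3))).val = 1 := by decide
    rw [this, pow_one] at h1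
    rw [map_add, map_inv₀, h1]
  · intro h2
    apply hne
    rw [h2, Units.val_neg, Units.val_one, map_neg, map_one] at h1
    have : ((-1 : ZMod (2 ^ 3))).val = 7 := by decide
    rw [this] at h1
    have h3 : z ^ 7 = z⁻¹ := eq_inv_of_mul_eq_one_left (by rw [← h8]; ring)
    rw [h3] at h1
    rw [map_add, map_inv₀, h1, inv_inv, add_comm]

end Pool.Agent.N848.Q
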