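import Pool.Agent.N848.Q.C

/-!
# The fields `ℚ(√d)` and `ℚ(i, √m)`
-/

set_option autoImplicit false
set_option linter.unusedSectionVars false

namespace Pool.Agent.N848.Q

open Pool.Agent.Y715.Gi (QB)
open Pool.Agent.R384 (vl Coc CobOn CocOn sgc kr mem_kr vl_one vl_mul)

/-- the vanishing over `ℚ` -/
theorem van_top {χ : G →* ℤ_[2]ˣ} {r : QB} (cd : ChiQ χ r) {m : ℤ} (hr : r ^ 2 = m)
    (hm : Squarefree m.natAbs) (hC : Crit m) : VanOn χ ⊤ := by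
  intro c hc hodd htwo
  obtain ⟨y, hy⟩ := vanish cd hr hm hC (c := c)
    ⟨continuousOn_univ.1 (by simpa using hc.cont), fun σ τ =>
      hc.mul σ (Subgroup.mem_top σ) τ (Subgroup.mem_top τ)⟩ (fun p _ ι hp => by
      obtain ⟨y, hy⟩ := hodd p ι hp
      exact ⟨y, fun σ hσ => hy σ hσ (Subgroup.mem_top σ)⟩) (fun ι => by
      obtain ⟨y, hy⟩ := htwo ι
      exact ⟨y, fun σ hσ => hy σ hσ (Subgroup.mem_top σ)⟩)
  exact ⟨y, fun σ _ => hy σ⟩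

/-- the powers of the cyclotomic character -/
theorem van_cyc (k : ℤ) : VanOn (cyc ^ k) ⊤ := by
  rcases Int.even_or_odd k with hk | hk
  · exact van_top (chi_cyc_even hk) (m := 1) (by simp) (by simp) (crit_unit (Or.inl rfl))
  · obtain ⟨I, hI⟩ : ∃ I : QB, I ^ 2 = -1 := IsAlgClosed.exists_pow_nat_eq _ (by norm_num)
    exact van_top (chi_cyc_odd hI hk) (m := -1) (by rw [hI]; simp) (by simp)
      (crit_unit (Or.inr rfl))

section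

variable {s : QB} (hs0 : s ≠ 0) (hs : ∀ σ : G, σ s = s ∨ σ s = -s)

/-- the twists by the character of `ℚ(√d)` -/
theorem van_tw {d : ℤ} (hd : s ^ 2 = d) (hsq : Squarefree d.natAbs) (k : ℤ)
    (hE : Even k → Crit d) (hO : Odd k → Crit (-d)) :
    VanOn (cyc ^ k * sgc (es hs0 hs)) ⊤ := by
  rcases Int.even_or_odd k with hk | hk
  · exact van_top ((chi_cyc_even hk).mul (chi_sgc hs0 hs)) (m := d) (by rw [one_mul, hd]) hsq (hE hk)
  · obtain ⟨I, hI⟩ : ∃ I : QB, I ^ 2 = -1 := IsAlgClosed.exists_pow_nat_eq _ (by norm_num)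
    refine van_top ((chi_cyc_odd hI hk).mul (chi_sgc hs0 hs)) (m := -d) ?_ ?_ (hO hk)
    · rw [mul_pow, hI, hd]
      push_cast
      ring
    · rwa [Int.natAbs_neg]

/-- quadratic fields -/
theorem van_quad {d : ℤ} (hd : s ^ 2 = d) (hsq : Squarefree d.natAbs) (k : ℤ)
    (hE : Even k → Crit d) (hO : Odd k → Crit (-d)) :
    VanOn (cyc ^ k) (kr (es hs0 hs) ⊤) :=
  VanOn.step (es_open hs0 hs) (van_cyc k) (van_tw hs0 hs hd hsq k hE hO)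

variable {I : QB} (hI0 : I ≠ 0) (hIs : ∀ σ : G, σ I = I ∨ σ I = -I)

/-- the twists by the character of `ℚ(i)` -/
theorem van_tw_I (hI : I ^ 2 = -1) (k : ℤ) : VanOn (cyc ^ k * sgc (es hI0 hIs)) ⊤ :=
  van_tw hI0 hIs (d := -1) (by rw [hI]; simp) (by simp) k
    (fun _ => crit_unit (Or.inr rfl)) (fun _ => crit_unit (Or.inl (by norm_num)))

/-- the product of the twists -/
theorem van_tw2 (hI : I ^ 2 = -1) {d : ℤ} (hd : s ^ 2 = d) (hsq : Squarefree d.natAbs) (k : ℤ)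
    (hC : Crit d) (hC' : Crit (-d)) :
    VanOn (cyc ^ k * sgc (es hs0 hs) * sgc (es hI0 hIs)) ⊤ := by
  rcases Int.even_or_odd k with hk | hk
  · refine van_top (((chi_cyc_even hk).mul (chi_sgc hs0 hs)).mul (chi_sgc hI0 hIs)) (m := -d)
      ?_ ?_ hC'
    · rw [one_mul, mul_pow, hd, hI]
      push_cast
      ring
    · rwa [Int.natAbs_neg]
  · refine van_top (((chi_cyc_odd hI hk).mul (chi_sgc hs0 hs)).mul (chi_sgc hI0 hIs)) (m := d)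
      ?_ hsq hC
    rw [mul_pow, mul_pow, hd, hI]
    ring

/-- biquadratic fields -/
theorem van_biq (hI : I ^ 2 = -1) {d : ℤ} (hd : s ^ 2 = d) (hsq : Squarefree d.natAbs) (k : ℤ)
    (hC : Crit d) (hC' : Crit (-d)) :
    VanOn (cyc ^ k) (kr (es hs0 hs) (kr (es hI0 hIs) ⊤)) := by
  refine VanOn.step (es_open hs0 hs) ?_ ?_
  · exact VanOn.step (es_open hI0 hIs) (van_cyc k) (van_tw_I hI0 hIs hI k)
  · exact VanOn.step (es_open hI0 hIs) (van_tw hs0 hs hd hsq k (fun _ => hC) (fun _ => hC'))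
      (van_tw2 hs0 hs hI0 hIs hI hd hsq k hC hC')

end

/-! ### Integral cocycles on larger groups -/

/-- **From the normal subgroup `H'` to `H`, with integral coefficients.** -/
theorem descend {H H' : Subgroup G} (hle : H' ≤ H) (hn : H'.Normal) {k : ℤ} (hk : k ≠ 0)
    (hsq : ∀ σ : G, σ * σ ∈ H') (van : VanOn (cyc ^ k) H') (c : ↥H → ℤ_[2]) (cont : Continuous c)
    (mul : ∀ σ τ : H, c (σ * τ) = c σ + (((cyc (σ : G)) ^ k : ℤ_[2]ˣ) : ℤ_[2]) * c τ)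
    (odd : ∀ (p : ℕ) [Fact p.Prime] (ι : QB →ₐ[ℚ] PadicAlgCl p), p ≠ 2 →
      ∀ σ : H, (σ : G) ∈ II ι → c σ = 0)
    (two : ∀ ι : QB →ₐ[ℚ] PadicAlgCl 2, ∃ z : ℤ_[2], ∀ σ : H, (σ : G) ∈ DD ι →
      c σ = ((((cyc (σ : G)) ^ k : ℤ_[2]ˣ) : ℤ_[2]) - 1) * z) :
    ∃ z : ℤ_[2], ∀ σ : H, c σ = ((((cyc (σ : G)) ^ k : ℤ_[2]ˣ) : ℤ_[2]) - 1) * z := by
  classical
  set χ : G →* ℤ_[2]ˣ := cyc ^ k with hχ
  have hvl : ∀ σ : G, vl χ σ = ((((cyc σ) ^ k : ℤ_[2]ˣ) : ℤ_[2]) : ℚ_[2]) := fun σ => rfl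
  set c' : G → ℚ_[2] := fun σ => if h : σ ∈ H then ((c ⟨σ, h⟩ : ℤ_[2]) : ℚ_[2]) else 0 with hc'
  have hval : ∀ σ : H, c' (σ : G) = ((c σ : ℤ_[2]) : ℚ_[2]) := by
    intro σ
    rw [hc']
    exact dif_pos σ.2
  have gc : ContinuousOn c' (H : Set G) := by
    rw [continuousOn_iff_continuous_domRestrict]
    have e : (↑H : Set G).domRestrict c' = fun σ => ((c σ : ℤ_[2]) : ℚ_[2]) := by
      funext σ
      exact hval σ
    rw [e]
    exact continuous_subtype_val.comp cont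
  have gm : ∀ σ ∈ H, ∀ τ ∈ H, c' (σ * τ) = c' σ + vl χ σ * c' τ := by
    intro σ hσ τ hτ
    have h1 := mul ⟨σ, hσ⟩ ⟨τ, hτ⟩
    have h3 : c' (σ * τ) = ((c (⟨σ, hσ⟩ * ⟨τ, hτ⟩) : ℤ_[2]) : ℚ_[2]) := hval (⟨σ, hσ⟩ * ⟨τ, hτ⟩)
    rw [h3, h1, hval ⟨σ, hσ⟩, hval ⟨τ, hτ⟩, hvl]
    push_cast
    rfl
  obtain ⟨y, hy⟩ := van c' ⟨gc.mono hle, fun σ hσ τ hτ => gm σ (hle hσ) τ (hle hτ)⟩
    (fun p _ ι hp => ⟨0, fun σ hσ h1 => by
      rw [mul_zero, hval ⟨σ, hle h1⟩, odd p ι hp ⟨σ, hle h1⟩ hσ]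
      rfl⟩) (fun ι => by
      obtain ⟨z, hz⟩ := two ι
      refine ⟨(z : ℚ_[2]), fun σ hσ h1 => ?_⟩
      rw [hval ⟨σ, hle h1⟩, hz ⟨σ, hle h1⟩ hσ, hvl]
      push_cast
      rfl)
  -- the integrality
  obtain ⟨ι⟩ := exists_iota 2
  obtain ⟨z, hz⟩ := two ι
  obtain ⟨σ, h1, h3⟩ := exists_cyc_ne ι hk
  set τ : G := σ * σ with hτ
  have hτH : τ ∈ H' := hsq σ
  have hτD : τ ∈ DD ι := (DD ι).mul_mem h1 h1
  have hne : vl χ τ - 1 ≠ 0 := by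
    intro h
    apply h3
    have h8 : (((((cyc τ) ^ k : ℤ_[2]ˣ) : ℤ_[2]) - 1 : ℤ_[2]) : ℚ_[2]) = 0 := by
      push_cast
      exact h
    have h9 : (((cyc τ) ^ k : ℤ_[2]ˣ) : ℤ_[2]) - 1 = 0 :=
      Subtype.ext (h8.trans PadicInt.coe_zero.symm)
    exact Units.ext (sub_eq_zero.1 h9)
  have hyz : y = (z : ℚ_[2]) := by
    have h6 := hy τ hτH
    rw [hval ⟨τ, hle hτH⟩, hz ⟨τ, hle hτH⟩ hτD] at h6
    push_cast at h6
    exact (mul_left_cancel₀ hne h6).symm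
  -- the extension to `H`
  have hall : ∀ σ ∈ H, c' σ = (vl χ σ - 1) * y := by
    intro σ hσ
    have hc : σ⁻¹ * τ * σ ∈ H' := by
      have := hn.conj_mem τ hτH σ⁻¹
      rwa [inv_inv] at this
    have e1 := gm τ (hle hτH) σ hσ
    have e2 := gm σ hσ (σ⁻¹ * τ * σ) (hle hc)
    have e3 : σ * (σ⁻¹ * τ * σ) = τ * σ := by group
    rw [e3, e1, hy τ hτH, hy _ hc, vl_conj] at e2
    apply mul_left_cancel₀ hne
    linear_combination e2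
  refine ⟨z, fun σ => ?_⟩
  have h8 := hall (σ : G) σ.2
  rw [hval, hyz] at h8
  have h9 : ((c σ : ℤ_[2]) : ℚ_[2]) = ((((((cyc (σ : G)) ^ k : ℤ_[2]ˣ) : ℤ_[2]) - 1) * z : ℤ_[2]) :
      ℚ_[2]) := by
    rw [h8]
    push_cast
    rfl
  exact Subtype.ext h9

end Pool.Agent.N848.Q
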