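import Pool.Agent.N916.GB.Tr
import Pool.Agent.N848.Q.B

/-!
# Symbols and prime discriminants
-/

set_option autoImplicit false
set_option linter.unusedSectionVars false

namespace Pool.Agent.N848.Q

open Finset
open Pool.Agent.Y703.CQ (nr)
open Pool.Agent.N973.ND (uu)
open Pool.Agent.N916.GB (Po z2 z2_add_self z2_sq nr_recip z2_eq_of_add)

open scoped Classical

/-- the additive symbol -/
noncomputable def ns (q : ℕ) (a : ℤ) : ZMod 2 := if IsSquare (a : ZMod q) then 0 else 1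

lemma ns_zero {q : ℕ} {a : ℤ} : ns q a = 0 ↔ IsSquare (a : ZMod q) := by
  unfold ns
  split_ifs with h
  · simp [h]
  · simp [h]

lemma ns_nat (q a : ℕ) : ns q (a : ℤ) = nr q a := by
  unfold ns nr
  rw [Int.cast_natCast]

lemma ns_leg {q : ℕ} [Fact q.Prime] {a : ℤ} (ha : ¬ (q : ℤ) ∣ a) :
    legendreSym q a = if ns q a = 0 then 1 else -1 := by
  have h0 : (a : ZMod q) ≠ 0 := by rwa [Ne, ZMod.intCast_zmod_eq_zero_iff_dvd]
  by_cases h : IsSquare (a : ZMod q)
  · rw [if_pos (ns_zero.2 h)]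
    exact (legendreSym.eq_one_iff q h0).2 h
  · rw [if_neg (fun h' => h (ns_zero.1 h'))]
    exact (legendreSym.eq_neg_one_iff q).2 h

lemma ns_mul {q : ℕ} (hq : q.Prime) {a b : ℤ} (ha : ¬ (q : ℤ) ∣ a) (hb : ¬ (q : ℤ) ∣ b) :
    ns q (a * b) = ns q a + ns q b := by
  have : Fact q.Prime := ⟨hq⟩
  have hqp : Prime (q : ℤ) := Nat.prime_iff_prime_int.1 hq
  have hab : ¬ (q : ℤ) ∣ a * b := fun h => (hqp.dvd_or_dvd h).elim ha hb
  have h1 := legendreSym.mul q a b
  rw [ns_leg ha, ns_leg hb, ns_leg hab] at h1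
  rcases z2 (ns q a) with h2 | h2 <;> rcases z2 (ns q b) with h3 | h3 <;>
    rcases z2 (ns q (a * b)) with h4 | h4 <;> rw [h2, h3, h4] at h1 ⊢ <;>
    first | rfl | (exfalso; revert h1; decide)

lemma ns_one (q : ℕ) : ns q 1 = 0 := by
  rw [ns_zero, Int.cast_one]
  exact ⟨1, by ring⟩

lemma ns_neg_one {q : ℕ} (hq : q.Prime) : ns q (-1) = uu q := by
  have : Fact q.Prime := ⟨hq⟩
  have h := ZMod.exists_sq_eq_neg_one_iff (p := q)
  unfold uu
  by_cases h1 : q % 4 = 3
  · rw [if_pos h1]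
    refine (z2 _).resolve_left fun h2 => ?_
    rw [ns_zero] at h2
    push_cast at h2
    exact (h.1 h2) h1
  · rw [if_neg h1, ns_zero]
    push_cast
    exact h.2 h1

/-- the odd prime discriminants -/
def star (p : ℕ) : ℤ := if p % 4 = 3 then -(p : ℤ) else p

lemma natAbs_star (p : ℕ) : (star p).natAbs = p := by
  unfold star
  split_ifs
  · rw [Int.natAbs_neg, Int.natAbs_natCast]
  · rw [Int.natAbs_natCast]

lemma dvd_star {p q : ℕ} : (q : ℤ) ∣ star p ↔ q ∣ p := by
  rw [Int.natCast_dvd, natAbs_star]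

lemma not_dvd_star {p q : ℕ} (hp : Po p) (hq : Po q) (h : p ≠ q) : ¬ (q : ℤ) ∣ star p := by
  rw [dvd_star]
  intro h1
  exact h ((Nat.prime_dvd_prime_iff_eq hq.1 hp.1).1 h1).symm

lemma ns_star {p q : ℕ} (hp : Po p) (hq : Po q) (h : p ≠ q) : ns q (star p) = nr p q := by
  have h1 := nr_recip hp hq h
  have hqp : ¬ (q : ℤ) ∣ (p : ℤ) := by
    rw [Int.natCast_dvd_natCast]
    intro h1
    exact h ((Nat.prime_dvd_prime_iff_eq hq.1 hp.1).1 h1).symm
  have hq1 : ¬ (q : ℤ) ∣ -1 := by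
    rw [dvd_neg, Int.natCast_dvd_ofNat]
    intro h2
    exact hq.1.one_lt.ne' (Nat.dvd_one.1 h2)
  unfold star
  by_cases h4 : p % 4 = 3
  · rw [if_pos h4]
    have e : (-(p : ℤ)) = (-1) * (p : ℤ) := by ring
    have hu : uu p = 1 := if_pos h4
    rw [hu, one_mul] at h1
    rw [e, ns_mul hq.1 hq1 hqp, ns_neg_one hq.1, ns_nat, ← h1, add_assoc, z2_add_self, add_zero]
  · rw [if_neg h4]
    have hu : uu p = 0 := if_neg h4
    rw [hu, zero_mul] at h1
    rw [ns_nat, z2_eq_of_add h1]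

lemma not_dvd_prod_star {q : ℕ} (hq : Po q) (T : Finset ℕ) (hT : ∀ p ∈ T, Po p) (h : q ∉ T) :
    ¬ (q : ℤ) ∣ ∏ p ∈ T, star p := by
  have hqp : Prime (q : ℤ) := Nat.prime_iff_prime_int.1 hq.1
  intro h1
  obtain ⟨p, hp, h2⟩ := (hqp.dvd_finsetProd_iff _).1 h1
  exact not_dvd_star (hT p hp) hq (fun e => h (e ▸ hp)) h2

lemma ns_prod_star {q : ℕ} (hq : Po q) (T : Finset ℕ) (hT : ∀ p ∈ T, Po p) (h : q ∉ T) :
    ns q (∏ p ∈ T, star p) = ∑ p ∈ T, nr p q := by
  induction T using Finset.induction_on with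
  | empty => rw [prod_empty, sum_empty, ns_one]
  | insert a S ha ih =>
    rw [prod_insert ha, sum_insert ha]
    have h1 : q ≠ a := fun e => h (e ▸ mem_insert_self a S)
    have h2 : q ∉ S := fun e => h (mem_insert_of_mem e)
    have h3 : ∀ p ∈ S, Po p := fun p hp => hT p (mem_insert_of_mem hp)
    have h4 := hT a (mem_insert_self a S)
    rw [ns_mul hq.1 (not_dvd_star h4 hq h1.symm) (not_dvd_prod_star hq S h3 h2),
      ns_star h4 hq h1.symm, ih h3 h2]

lemma nr_two {p : ℕ} (hp : Po p) : nr p 2 = 0 ↔ p % 8 = 1 ∨ p % 8 = 7 := by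
  have : Fact p.Prime := ⟨hp.1⟩
  rw [← ZMod.exists_sq_eq_two_iff hp.2]
  unfold nr
  push_cast
  split_ifs with h
  · simp [h]
  · simp [h]

lemma odd_Po {p : ℕ} (hp : Po p) : p % 2 = 1 := hp.1.eq_two_or_odd.resolve_left hp.2

lemma star_mod {p : ℕ} (hp : Po p) : star p % 8 = if nr p 2 = 0 then 1 else 5 := by
  have h2 := odd_Po hp
  unfold star
  by_cases h : nr p 2 = 0
  · rw [if_pos h]
    rcases (nr_two hp).1 h with h1 | h1
    · rw [if_neg (by omega)]; omega
    · rw [if_pos (by omega)]; omega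
  · rw [if_neg h]
    have h3 : ¬ (p % 8 = 1 ∨ p % 8 = 7) := fun h' => h ((nr_two hp).2 h')
    push Not at h3
    split_ifs <;> omega

lemma prod_star_mod (T : Finset ℕ) (hT : ∀ p ∈ T, Po p) :
    (∏ p ∈ T, star p) % 8 = if ∑ p ∈ T, nr p 2 = 0 then 1 else 5 := by
  induction T using Finset.induction_on with
  | empty => rw [prod_empty, sum_empty, if_pos rfl]; norm_num
  | insert a S ha ih =>
    rw [prod_insert ha, sum_insert ha, Int.mul_emod, ih fun p hp => hT p (mem_insert_of_mem hp),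
      star_mod (hT a (mem_insert_self a S))]
    rcases z2 (nr a 2) with h | h <;> rcases z2 (∑ p ∈ S, nr p 2) with h' | h' <;> rw [h, h'] <;>
      decide

lemma prod_star_sign (T : Finset ℕ) :
    ∏ p ∈ T, star p = (if ∑ p ∈ T, uu p = 0 then 1 else -1) * ∏ p ∈ T, (p : ℤ) := by
  induction T using Finset.induction_on with
  | empty => rw [prod_empty, sum_empty, if_pos rfl, prod_empty, one_mul]
  | insert a S ha ih =>
    rw [prod_insert ha, sum_insert ha, prod_insert ha, ih]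
    have h1 : star a = (if uu a = 0 then 1 else -1) * (a : ℤ) := by
      unfold star uu
      by_cases h : a % 4 = 3
      · rw [if_pos h, if_pos h, if_neg (by decide)]
        ring
      · rw [if_neg h, if_neg h, if_pos rfl]
        ring
    have e2 : (1 : ZMod 2) + 1 = 0 := by decide
    rw [h1]
    rcases z2 (uu a) with h | h <;> rcases z2 (∑ p ∈ S, uu p) with h' | h' <;> rw [h, h']
    · simp
    · simp
    · simp
    · rw [e2, if_pos rfl, if_neg one_ne_zero]
      ring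

lemma prod_star_natAbs (T : Finset ℕ) : (∏ p ∈ T, star p).natAbs = ∏ p ∈ T, p := by
  rw [← Int.natAbsHom_apply, map_prod]
  exact prod_congr rfl fun p _ => natAbs_star p

/-- a squarefree integer `1` modulo `4` is the product of its prime discriminants -/
lemma eq_prod_star {a : ℤ} (ha : a % 4 = 1) (hs : Squarefree a.natAbs) :
    a = ∏ p ∈ a.natAbs.primeFactors, star p := by
  have hT : ∀ p ∈ a.natAbs.primeFactors, Po p := by
    intro p hp
    refine ⟨Nat.prime_of_mem_primeFactors hp, ?_⟩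
    rintro rfl
    have := Nat.dvd_of_mem_primeFactors hp
    omega
  have h1 := prod_star_mod _ hT
  have h2 : (∏ p ∈ a.natAbs.primeFactors, star p).natAbs = a.natAbs := by
    rw [prod_star_natAbs, Nat.prod_primeFactors_of_squarefree hs]
  set b := ∏ p ∈ a.natAbs.primeFactors, star p with hb
  have h3 : b % 4 = 1 := by split_ifs at h1 <;> omega
  rcases Int.natAbs_eq_natAbs_iff.1 h2 with h4 | h4
  · exact h4.symm
  · omega

end Pool.Agent.N848.Q
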