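import Pool.Agent.N848.Q.E

/-!
# The left kernel of the Rédei matrix
-/

set_option autoImplicit false
set_option linter.unusedSectionVars false

namespace Pool.Agent.N848.Q

open Finset
open Pool.Agent.Y703.CQ (nr)
open Pool.Agent.N973.ND (uu)
open Pool.Agent.N916.GB (Po sy Vt Gd Gv Lm Gv_iff_rank z2 z2_add_self z2_sq nr_recip z2_eq_of_add)

open scoped Classical

section la

variable {V : Type} [Fintype V]

/-- the left kernel is a line -/
theorem left_ker [Nonempty V] {N : V → V → ZMod 2} (hG : Gv N) {x y : V → ZMod 2}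
    (hx : ∀ p, ∑ q, (if q = p then 0 else x q * N q p + x p * N p q) = 0)
    (hy : ∀ p, ∑ q, (if q = p then 0 else y q * N q p + y p * N p q) = 0) (hy0 : y ≠ 0) :
    x = 0 ∨ x = y := by
  have hk : ∀ x : V → ZMod 2,
      (∀ p, ∑ q, (if q = p then 0 else x q * N q p + x p * N p q) = 0) →
      x ∈ LinearMap.ker (Lm N).transpose.mulVecLin := by
    intro x hx
    rw [LinearMap.mem_ker, Matrix.mulVecLin_apply]
    funext p
    refine Eq.trans ?_ (hx p)
    unfold Matrix.mulVec dotProduct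
    have h1 : ∀ q, (Lm N).transpose p q * x q = (if q = p then 0 else x q * N q p) +
        (if q = p then (∑ p', (if p' = p then 0 else N p p')) * x p else 0) := by
      intro q
      rw [Matrix.transpose_apply]
      unfold Lm
      by_cases h : q = p
      · rw [if_pos h, if_pos h, if_pos h.symm, zero_add, h]
      · rw [if_neg h, if_neg h, if_neg (fun h' => h h'.symm), add_zero, mul_comm]
    rw [sum_congr rfl fun q _ => h1 q, sum_add_distrib, sum_ite_eq' univ p, if_pos (mem_univ _),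
      sum_mul, ← sum_add_distrib]
    refine sum_congr rfl fun q _ => ?_
    by_cases h : q = p
    · rw [if_pos h, if_pos h, if_pos h, zero_mul, zero_add]
    · rw [if_neg h, if_neg h, if_neg h]
      ring
  have h1 := (Gv_iff_rank N).1 hG
  have h2 := LinearMap.finrank_range_add_finrank_ker (Lm N).transpose.mulVecLin
  rw [Module.finrank_fintype_fun_eq_card] at h2
  have h3 : (Lm N).transpose.rank = Module.finrank (ZMod 2)
    (LinearMap.range (Lm N).transpose.mulVecLin) := rfl
  rw [← h3, Matrix.rank_transpose] at h2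
  have h4 : Module.finrank (ZMod 2) (LinearMap.ker (Lm N).transpose.mulVecLin) = 1 := by omega
  have hne : (⟨y, hk y hy⟩ : LinearMap.ker (Lm N).transpose.mulVecLin) ≠ 0 := by
    intro h
    exact hy0 (congrArg Subtype.val h)
  rw [finrank_eq_one_iff_of_nonzero' _ hne] at h4
  obtain ⟨c, hc⟩ := h4 ⟨x, hk x hx⟩
  have h6 : c • y = x := congrArg Subtype.val hc
  rcases z2 c with h | h
  · left
    rw [← h6, h, zero_smul]
  · right
    rw [← h6, h, one_smul]

end la

/-! ### The systems of the sets of primes -/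

theorem Gd_iff (t : Bool) (r s : ZMod 2) (S : Finset ℕ) :
    Gd t r s S ↔ Gv (fun q p : Vt t S => sy r s (q : ℕ) (p : ℕ)) := by
  unfold Gd Gv
  constructor
  · intro h x hx p q
    have h1 := h (fun p => if hp : p ∈ Vt t S then x ⟨p, hp⟩ else 0) (by
      intro q hq
      have h2 := hx ⟨q, hq⟩
      rw [← sum_coe_sort (Vt t S)]
      refine Eq.trans (sum_congr rfl fun p _ => ?_) h2
      rw [dif_pos p.2, dif_pos hq]) p p.2 q q.2
    rw [dif_pos p.2, dif_pos q.2] at h1
    exact h1
  · intro h x hx p hp q hq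
    exact h (fun p => x p) (by
      intro q
      have h2 := hx q q.2
      rw [← sum_coe_sort (Vt t S)] at h2
      exact h2) ⟨p, hp⟩ ⟨q, hq⟩

/-- the column equation -/
noncomputable def Lk (t : Bool) (r s : ZMod 2) (S : Finset ℕ) (x : ℕ → ZMod 2) (p : ℕ) : ZMod 2 :=
  ∑ q ∈ Vt t S, (if q = p then 0 else x q * sy r s q p + x p * sy r s p q)

theorem left_two {t : Bool} {r s : ZMod 2} {S : Finset ℕ} (hG : Gd t r s S) {x y : ℕ → ZMod 2}
    (hx : ∀ p ∈ Vt t S, Lk t r s S x p = 0) (hy : ∀ p ∈ Vt t S, Lk t r s S y p = 0)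
    {p₀ : ℕ} (hp₀ : p₀ ∈ Vt t S) (hy0 : y p₀ ≠ 0) :
    (∀ p ∈ Vt t S, x p = 0) ∨ ∀ p ∈ Vt t S, x p = y p := by
  have : Nonempty (Vt t S) := ⟨⟨p₀, hp₀⟩⟩
  have key : ∀ x : ℕ → ZMod 2, (∀ p ∈ Vt t S, Lk t r s S x p = 0) → ∀ p : Vt t S,
      ∑ q : Vt t S, (if q = p then 0 else x q * sy r s (q : ℕ) (p : ℕ) +
        x p * sy r s (p : ℕ) (q : ℕ)) = 0 := by
    intro x hx p
    have h1 := hx p p.2
    unfold Lk at h1
    rw [← sum_coe_sort (Vt t S)] at h1
    refine Eq.trans (sum_congr rfl fun q _ => ?_) h1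
    by_cases h : q = p
    · rw [if_pos h, if_pos (congrArg _ h)]
    · rw [if_neg h, if_neg fun h' => h (Subtype.ext h')]
  rcases left_ker ((Gd_iff t r s S).1 hG) (x := fun p => x p) (y := fun p => y p)
    (fun p => by convert key x hx p) (fun p => by convert key y hy p) (fun h => hy0 (congrFun h ⟨p₀, hp₀⟩)) with h | h
  · left
    intro p hp
    exact congrFun h ⟨p, hp⟩
  · right
    intro p hp
    exact congrFun h ⟨p, hp⟩

lemma sum_Vt {t : Bool} {S : Finset ℕ} (hS : ∀ p ∈ S, Po p) (f : ℕ → ZMod 2) :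
    ∑ q ∈ Vt t S, f q = (if t = true then f 2 else 0) + ∑ q ∈ S, f q := by
  unfold Vt
  by_cases h : t = true
  · rw [if_pos h, if_pos h, sum_insert fun h2 => (hS 2 h2).2 rfl]
  · rw [if_neg h, if_neg h, zero_add]

lemma mem_Vt {t : Bool} {S : Finset ℕ} {p : ℕ} : p ∈ Vt t S ↔ (t = true ∧ p = 2) ∨ p ∈ S := by
  unfold Vt
  by_cases h : t = true
  · rw [if_pos h, mem_insert]
    tauto
  · rw [if_neg h]
    tauto

variable {t : Bool} {r s : ZMod 2} {S : Finset ℕ}

lemma sy_odd {p q : ℕ} (hp : Po p) : sy r s q p = nr p q := if_neg hp.2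

lemma sy_two {q : ℕ} : sy r s q 2 = r * nr q 2 + s * uu q := if_pos rfl

lemma two0 : (2 : ZMod 2) = 0 := rfl

/-- the column equation of an odd prime -/
theorem Lk_odd (hS : ∀ p ∈ S, Po p) (y : ℕ → ZMod 2) {p : ℕ} (hp : p ∈ S) :
    Lk t r s S y p = ∑ q ∈ Vt t S, (y q + y p) * sy r s p q +
      (if t = true then y 2 * (nr p 2 + (r * nr p 2 + s * uu p)) else 0) +
      uu p * ∑ q ∈ S, uu q * y q + uu p * y p := by
  have hp' := hS p hp
  unfold Lk
  rw [sum_Vt hS, sum_Vt hS]
  have h1 : ∀ q ∈ S, (if q = p then 0 else y q * sy r s q p + y p * sy r s p q) =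
      (y q + y p) * sy r s p q + uu p * (uu q * y q) + (if q = p then uu p * y p else 0) := by
    intro q hq
    have hq' := hS q hq
    rw [sy_odd hp', sy_odd hq']
    by_cases h : q = p
    · subst h
      rw [if_pos rfl, if_pos rfl, z2_add_self, zero_mul, zero_add, ← mul_assoc, z2_sq,
        z2_add_self]
    · rw [if_neg h, if_neg h, add_zero]
      have h2 := nr_recip hp' hq' (Ne.symm h)
      linear_combination y q * h2 - (y q * nr q p) * two0
  have h3 : (2 : ℕ) ≠ p := fun h => hp'.2 h.symm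
  rw [sum_congr rfl h1, sum_add_distrib, sum_add_distrib, sum_ite_eq' S p, if_pos hp, ← mul_sum,
    if_neg h3, sy_odd hp', sy_two]
  by_cases ht : t = true
  · rw [if_pos ht, if_pos ht, if_pos ht]
    linear_combination -(y 2 * (r * nr p 2 + s * uu p)) * two0
  · rw [if_neg ht, if_neg ht, if_neg ht]
    ring

/-- the column equation of the prime two -/
theorem Lk_two (hS : ∀ p ∈ S, Po p) (y : ℕ → ZMod 2) :
    Lk t r s S y 2 = ∑ q ∈ S, (y q * (r * nr q 2 + s * uu q) + y 2 * nr q 2) := by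
  unfold Lk
  rw [sum_Vt hS, if_pos rfl]
  have e : (if t = true then (0 : ZMod 2) else 0) = 0 := by split_ifs <;> rfl
  rw [e, zero_add]
  refine sum_congr rfl fun q hq => ?_
  have hq' := hS q hq
  rw [if_neg hq'.2, sy_two, sy_odd hq']

lemma dec4 : ∀ r s e u : ZMod 2, (r + 1) * (r * e + s * u) + 0 + r * (e + (r * e + s * u)) +
    u * (1 + s) + u * 1 = 0 := by decide

/-- the generator of the left kernel -/
theorem gen_left (hS : ∀ p ∈ S, Po p) (hok : t = false → r = 0 ∧ s = 0)
    (hU : ∑ p ∈ S, uu p = 1 + s) : ∀ p ∈ Vt t S, Lk t r s S (fun q => if q = 2 then r else 1) p = 0 := by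
  set y : ℕ → ZMod 2 := fun q => if q = 2 then r else 1 with hy
  have y2 : y 2 = r := if_pos rfl
  have yo : ∀ q ∈ S, y q = 1 := fun q hq => if_neg (hS q hq).2
  intro p hp
  rcases mem_Vt.1 hp with ⟨ht, rfl⟩ | hp
  · rw [Lk_two hS]
    have h1 : ∀ q ∈ S, (y q * (r * nr q 2 + s * uu q) + y 2 * nr q 2) = s * uu q := by
      intro q hq
      rw [yo q hq, y2]
      linear_combination (r * nr q 2) * two0
    rw [sum_congr rfl h1, ← mul_sum, hU]
    rcases z2 s with h | h <;> rw [h] <;> decide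
  · rw [Lk_odd hS y hp, sum_Vt hS]
    have h1 : ∀ q ∈ S, (y q + y p) * sy r s p q = 0 := by
      intro q hq
      rw [yo q hq, yo p hp, z2_add_self, zero_mul]
    have h2 : ∀ q ∈ S, uu q * y q = uu q := by
      intro q hq
      rw [yo q hq, mul_one]
    rw [sum_congr rfl h1, sum_congr rfl h2, hU, sum_const_zero, yo p hp, y2, sy_two]
    by_cases ht : t = true
    · rw [if_pos ht, if_pos ht]
      exact dec4 _ _ _ _
    · obtain ⟨h3, h4⟩ := hok (by simpa using ht)
      rw [if_neg ht, if_neg ht, h4]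
      generalize uu p = u
      revert u
      decide

/-- **The real side.** -/
theorem real_side (hS : ∀ p ∈ S, Po p) (hG : Gd t r s S) (hok : t = false → r = 0 ∧ s = 0)
    (hU : ∑ p ∈ S, uu p = 1 + s) (hE : t = true → r = 0 → ∑ p ∈ S, nr p 2 = 1)
    {T : Finset ℕ} (hTS : T ⊆ S) (hTu : ∑ p ∈ T, uu p = 0) (hTe : ∑ p ∈ T, nr p 2 = 0)
    (hrow : ∀ q ∈ S, ∑ p ∈ Vt t S, ((if p ∈ T then 1 else 0) + (if q ∈ T then 1 else 0)) * sy r s q p
      = (if q ∈ T then uu q else 0)) : T = ∅ := by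
  set x : ℕ → ZMod 2 := fun p => if p ∈ T then 1 else 0 with hx
  have h2T : (2 : ℕ) ∉ T := fun h => (hS 2 (hTS h)).2 rfl
  have x2 : x 2 = 0 := if_neg h2T
  have hsum : ∀ f : ℕ → ZMod 2, ∑ q ∈ S, x q * f q = ∑ q ∈ T, f q := by
    intro f
    have h1 : ∀ q ∈ S, x q * f q = if q ∈ T then f q else 0 := by
      intro q _
      rw [hx]
      simp only
      split_ifs
      · rw [one_mul]
      · rw [zero_mul]
    rw [sum_congr rfl h1, ← sum_filter]
    congr 1
    ext q
    rw [mem_filter]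
    exact ⟨fun h => h.2, fun h => ⟨hTS h, h⟩⟩
  have hxl : ∀ p ∈ Vt t S, Lk t r s S x p = 0 := by
    intro p hp
    rcases mem_Vt.1 hp with ⟨ht, rfl⟩ | hp
    · rw [Lk_two hS]
      have h1 : ∀ q ∈ S, (x q * (r * nr q 2 + s * uu q) + x 2 * nr q 2) =
          x q * (r * nr q 2 + s * uu q) := by
        intro q _
        rw [x2, zero_mul, add_zero]
      rw [sum_congr rfl h1, hsum, sum_add_distrib, ← mul_sum, ← mul_sum, hTu, hTe, mul_zero,
        mul_zero, add_zero]
    · have h1 : ∀ q ∈ S, uu q * x q = x q * uu q := fun q _ => mul_comm _ _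
      rw [Lk_odd hS x hp, hrow p hp, x2, sum_congr rfl h1, hsum, hTu, zero_mul, mul_zero, add_zero]
      have e : (if t = true then (0 : ZMod 2) else 0) = 0 := by split_ifs <;> rfl
      rw [e, add_zero, hx]
      simp only
      split_ifs
      · rw [mul_one, z2_add_self]
      · rw [mul_zero, add_zero]
  by_contra hne
  obtain ⟨p₀, hp₀⟩ := Finset.nonempty_iff_ne_empty.2 hne
  have hp₀S := hTS hp₀
  have hp₀V : p₀ ∈ Vt t S := mem_Vt.2 (Or.inr hp₀S)
  rcases left_two hG hxl (gen_left hS hok hU) hp₀V (by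
    rw [if_neg (hS p₀ hp₀S).2]
    exact one_ne_zero) with h | h
  · have h1 := h p₀ hp₀V
    rw [hx] at h1
    simp only [if_pos hp₀] at h1
    exact one_ne_zero h1
  · have hTS' : T = S := by
      refine Subset.antisymm hTS fun p hp => ?_
      have h1 := h p (mem_Vt.2 (Or.inr hp))
      rw [if_neg (hS p hp).2] at h1
      by_contra hpT
      rw [hx] at h1
      simp only [if_neg hpT] at h1
      exact zero_ne_one h1
    by_cases ht : t = true
    · have h1 := h 2 (mem_Vt.2 (Or.inl ⟨ht, rfl⟩))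
      rw [x2, if_pos rfl] at h1
      have h2 := hE ht h1.symm
      rw [← hTS', hTe] at h2
      exact zero_ne_one h2
    · obtain ⟨h3, h4⟩ := hok (by simpa using ht)
      rw [← hTS', hTu, h4] at hU
      exact absurd hU (by decide)

end Pool.Agent.N848.Q
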