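import Pool.Agent.N848.Q.F

/-!
# The criterion and the Rédei systems
-/

set_option autoImplicit false
set_option linter.unusedSectionVars false

namespace Pool.Agent.N848.Q

open Finset
open Pool.Agent.Y703.CQ (nr)
open Pool.Agent.N973.ND (uu)
open Pool.Agent.N916.GB (Po sy Vt Gd z2 z2_add_self z2_sq nr_recip z2_eq_of_add)

open scoped Classical

/-- the prime discriminant at two, up to squares -/
def Dl (r s : ZMod 2) : ℤ := (if r = 1 then 2 else 1) * (if s = 1 then -1 else 1)

variable {t : Bool} {r s : ZMod 2} {S : Finset ℕ}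

lemma Dl_ne : Dl r s ≠ 0 := by
  unfold Dl
  split_ifs <;> norm_num

lemma natAbs_Dl : (Dl r s).natAbs = 1 ∨ (Dl r s).natAbs = 2 := by
  unfold Dl
  split_ifs
  · right; rfl
  · right; rfl
  · left; rfl
  · left; rfl

lemma not_dvd_Dl {q : ℕ} (hq : Po q) : ¬ (q : ℤ) ∣ Dl r s := by
  rw [Int.natCast_dvd]
  intro h
  have h1 := hq.1.one_lt
  rcases natAbs_Dl (r := r) (s := s) with h2 | h2
  · rw [h2] at h
    exact h1.ne' (Nat.dvd_one.1 h)
  · rw [h2] at h
    exact hq.2 ((Nat.prime_dvd_prime_iff_eq hq.1 Nat.prime_two).1 h)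

lemma ns_Dl {q : ℕ} (hq : Po q) : ns q (Dl r s) = r * nr q 2 + s * uu q := by
  have h2 : ¬ (q : ℤ) ∣ 2 := by
    rw [show (2 : ℤ) = ((2 : ℕ) : ℤ) from rfl, Int.natCast_dvd_natCast]
    exact fun h => hq.2 ((Nat.prime_dvd_prime_iff_eq hq.1 Nat.prime_two).1 h)
  have h1 : ¬ (q : ℤ) ∣ -1 := by
    rw [dvd_neg, Int.natCast_dvd_ofNat]
    intro h2
    exact hq.1.one_lt.ne' (Nat.dvd_one.1 h2)
  have h1' : ¬ (q : ℤ) ∣ 1 := by rwa [dvd_neg] at h1
  have e2 : ns q 2 = nr q 2 := ns_nat q 2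
  unfold Dl
  rcases z2 r with hr | hr <;> rcases z2 s with hs | hs <;> rw [hr, hs]
  · rw [if_neg (by decide), if_neg (by decide), one_mul, ns_one, zero_mul, zero_mul, zero_add]
  · rw [if_neg (by decide), if_pos rfl, one_mul, ns_neg_one hq.1, zero_mul, one_mul, zero_add]
  · rw [if_pos rfl, if_neg (by decide), mul_one, e2, zero_mul, one_mul, add_zero]
  · rw [if_pos rfl, if_pos rfl, ns_mul hq.1 h2 h1, e2, ns_neg_one hq.1, one_mul, one_mul]

/-- the rows -/
lemma row_eq (hS : ∀ p ∈ S, Po p) (hok : t = false → r = 0 ∧ s = 0) {T : Finset ℕ} (hTS : T ⊆ S)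
    {q : ℕ} (hq : q ∈ S) :
    ∑ p ∈ Vt t S, ((if p ∈ T then (1 : ZMod 2) else 0) + (if q ∈ T then 1 else 0)) * sy r s q p =
      if q ∈ T then ns q (Dl r s * ∏ p ∈ S \ T, star p) else ns q (∏ p ∈ T, star p) := by
  have hq' := hS q hq
  have h2T : (2 : ℕ) ∉ T := fun h => (hS 2 (hTS h)).2 rfl
  rw [sum_Vt hS, if_neg h2T]
  by_cases hqT : q ∈ T
  · rw [if_pos hqT, if_pos hqT, sy_two]
    have h1 : q ∉ S \ T := fun h => (mem_sdiff.1 h).2 hqT
    rw [ns_mul hq'.1 (not_dvd_Dl hq') (not_dvd_prod_star hq' _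
      (fun p hp => hS p (mem_sdiff.1 hp).1) h1), ns_Dl hq', ns_prod_star hq' _
      (fun p hp => hS p (mem_sdiff.1 hp).1) h1]
    have h3 : ∑ p ∈ S, ((if p ∈ T then (1 : ZMod 2) else 0) + 1) * sy r s q p =
        ∑ p ∈ S \ T, nr p q := by
      rw [← sum_sdiff hTS, sum_eq_zero (s := T) fun p hp => by
        rw [if_pos hp, z2_add_self, zero_mul], add_zero]
      refine sum_congr rfl fun p hp => ?_
      rw [if_neg (mem_sdiff.1 hp).2, zero_add, one_mul, sy_odd (hS p (mem_sdiff.1 hp).1)]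
    rw [h3]
    congr 1
    by_cases ht : t = true
    · rw [if_pos ht]
      ring
    · obtain ⟨h3, h4⟩ := hok (by simpa using ht)
      rw [if_neg ht, h3, h4]
      ring
  · rw [if_neg hqT, if_neg hqT, add_zero, zero_mul, ns_prod_star hq' _
      (fun p hp => hS p (hTS hp)) hqT]
    have e : (if t = true then (0 : ZMod 2) else 0) = 0 := by split_ifs <;> rfl
    rw [e, zero_add, ← sum_sdiff hTS, sum_eq_zero (s := S \ T) fun p hp => by
      rw [if_neg (mem_sdiff.1 hp).2, add_zero, zero_mul], zero_add]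
    refine sum_congr rfl fun p hp => ?_
    rw [if_pos hp, add_zero, one_mul, sy_odd (hS p (hTS hp))]

lemma row_two (hS : ∀ p ∈ S, Po p) {T : Finset ℕ} (hTS : T ⊆ S) :
    ∑ p ∈ Vt t S, ((if p ∈ T then (1 : ZMod 2) else 0) + (if 2 ∈ T then 1 else 0)) * sy r s 2 p =
      ∑ p ∈ T, nr p 2 := by
  have h2T : (2 : ℕ) ∉ T := fun h => (hS 2 (hTS h)).2 rfl
  rw [sum_Vt hS, if_neg h2T, add_zero, zero_mul]
  have e : (if t = true then (0 : ZMod 2) else 0) = 0 := by split_ifs <;> rfl
  rw [e, zero_add, ← sum_sdiff hTS, sum_eq_zero (s := S \ T) fun p hp => by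
    rw [if_neg (mem_sdiff.1 hp).2, add_zero, zero_mul], zero_add]
  refine sum_congr rfl fun p hp => ?_
  rw [if_pos hp, add_zero, one_mul, sy_odd (hS p (hTS hp))]

lemma sqf_prod (hS : ∀ p ∈ S, Po p) : Squarefree (∏ p ∈ S, p) := by
  refine Finset.squarefree_prod_of_pairwise_isCoprime (fun p hp q hq hpq => ?_)
    fun p hp => (hS p hp).1.prime.squarefree
  show IsRelPrime p q
  rw [← Nat.coprime_iff_isRelPrime]
  exact (Nat.coprime_primes (hS p hp).1 (hS q hq).1).mpr hpq

lemma sqf_two (hS : ∀ p ∈ S, Po p) : Squarefree (2 * ∏ p ∈ S, p) := by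
  rw [Nat.squarefree_mul_iff]
  refine ⟨?_, Nat.prime_two.prime.squarefree, sqf_prod hS⟩
  refine Nat.Coprime.prod_right fun p hp => ?_
  exact (Nat.coprime_primes Nat.prime_two (hS p hp).1).2 (hS p hp).2.symm

lemma sqf_M (hS : ∀ p ∈ S, Po p) : Squarefree (Dl r s * ∏ p ∈ S, star p).natAbs := by
  rw [Int.natAbs_mul, prod_star_natAbs]
  rcases natAbs_Dl (r := r) (s := s) with h | h
  · rw [h, one_mul]
    exact sqf_prod hS
  · rw [h]
    exact sqf_two hS

/-- the factorizations -/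
lemma fac (hS : ∀ p ∈ S, Po p) {a c : ℤ} (h : Dl r s * ∏ p ∈ S, star p = a * c)
    (ha : a % 8 = 1) : ∃ T ⊆ S, a = ∏ p ∈ T, star p ∧ c = Dl r s * ∏ p ∈ S \ T, star p := by
  have hsq : Squarefree a.natAbs := by
    refine (sqf_M (r := r) (s := s) hS).squarefree_of_dvd ?_
    rw [h, Int.natAbs_mul]
    exact Dvd.intro _ rfl
  have ha0 : a ≠ 0 := by
    rintro rfl
    norm_num at ha
  have e := eq_prod_star (by omega) hsq
  have hTS : a.natAbs.primeFactors ⊆ S := by
    intro p hp
    have hpp := Nat.prime_of_mem_primeFactors hp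
    have hpa : (p : ℤ) ∣ a := Int.natCast_dvd.2 (Nat.dvd_of_mem_primeFactors hp)
    have hp' : Po p := by
      refine ⟨hpp, ?_⟩
      rintro rfl
      omega
    by_contra hpS
    have h1 : (p : ℤ) ∣ Dl r s * ∏ p ∈ S, star p := by
      rw [h]
      exact hpa.mul_right _
    rcases (Nat.prime_iff_prime_int.1 hpp).dvd_or_dvd h1 with h2 | h2
    · exact not_dvd_Dl hp' h2
    · exact not_dvd_prod_star hp' S hS hpS h2
  refine ⟨_, hTS, e, ?_⟩
  have h1 : a * c = a * (Dl r s * ∏ p ∈ S \ a.natAbs.primeFactors, star p) := by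
    rw [← h, ← prod_sdiff hTS, ← e]
    ring
  exact mul_left_cancel₀ ha0 h1

/-- the conditions at the primes -/
def Cd (a b : ℤ) : Prop := ∀ q : ℕ, q.Prime → q ≠ 2 → (((q : ℤ) ∣ b → IsSquare (a : ZMod q)) ∧
    ((q : ℤ) ∣ a → IsSquare (b : ZMod q)))

lemma star_dvd_prod {T : Finset ℕ} {q : ℕ} (hq : q ∈ T) : (q : ℤ) ∣ ∏ p ∈ T, star p :=
  (dvd_star.2 dvd_rfl).trans (dvd_prod_of_mem star hq)

/-- **The imaginary side, direct.** -/
theorem crit_neg_of_Gd (hS : ∀ p ∈ S, Po p) (hG : Gd t r s S) (hok : t = false → r = 0 ∧ s = 0)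
    (hF : t = false → ∑ p ∈ S, nr p 2 = 1) : Crit (Dl r s * ∏ p ∈ S, star p) := by
  intro a b hab ha _ hcd
  obtain ⟨T, hTS, h1, h2⟩ := fac hS hab ha
  have hTe : ∑ p ∈ T, nr p 2 = 0 := by
    by_contra h
    have h3 := prod_star_mod T fun p hp => hS p (hTS hp)
    rw [if_neg h, ← h1, ha] at h3
    norm_num at h3
  have hrows : ∀ q ∈ Vt t S, ∑ p ∈ Vt t S, ((if p ∈ T then (1 : ZMod 2) else 0) +
      (if q ∈ T then 1 else 0)) * sy r s q p = 0 := by
    intro q hq
    rcases mem_Vt.1 hq with ⟨ht, rfl⟩ | hq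
    · rw [row_two hS hTS, hTe]
    · rw [row_eq hS hok hTS hq]
      have hq' := hS q hq
      split_ifs with hqT
      · rw [← h2, ns_zero]
        refine (hcd q hq'.1 hq'.2).2 ?_
        rw [h1]
        exact star_dvd_prod hqT
      · rw [← h1, ns_zero]
        refine (hcd q hq'.1 hq'.2).1 ?_
        rw [h2]
        exact (star_dvd_prod (mem_sdiff.2 ⟨hq, hqT⟩)).mul_left _
  have h3 := hG (fun p => if p ∈ T then 1 else 0) hrows
  have h2T : (2 : ℕ) ∉ T := fun h => (hS 2 (hTS h)).2 rfl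
  have hT : T = ∅ := by
    by_contra hne
    obtain ⟨p₀, hp₀⟩ := Finset.nonempty_iff_ne_empty.2 hne
    have hV : p₀ ∈ Vt t S := mem_Vt.2 (Or.inr (hTS hp₀))
    by_cases ht : t = true
    · have h4 := h3 p₀ hV 2 (mem_Vt.2 (Or.inl ⟨ht, rfl⟩))
      rw [if_pos hp₀, if_neg h2T] at h4
      exact one_ne_zero h4
    · have hTS' : T = S := by
        refine Subset.antisymm hTS fun p hp => ?_
        have h4 := h3 p₀ hV p (mem_Vt.2 (Or.inr hp))
        rw [if_pos hp₀] at h4
        by_contra hpT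
        rw [if_neg hpT] at h4
        exact one_ne_zero h4
      have h5 := hF (by simpa using ht)
      rw [← hTS', hTe] at h5
      exact zero_ne_one h5
  rw [h1, hT, prod_empty]

/-- **The imaginary side, converse.** -/
theorem Gd_of_crit_neg (hS : ∀ p ∈ S, Po p) (hok : t = false → r = 0 ∧ s = 0)
    (hF : t = false → ∑ p ∈ S, nr p 2 = 1) (hU : ∑ p ∈ S, uu p = 1 + s)
    (hC : Crit (Dl r s * ∏ p ∈ S, star p)) : Gd t r s S := by
  have hneg : ¬ 0 < Dl r s * ∏ p ∈ S, star p := by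
    rw [prod_star_sign, hU]
    have h1 : 0 ≤ ∏ p ∈ S, (p : ℤ) := prod_nonneg fun p _ => by positivity
    unfold Dl
    rcases z2 r with hr | hr <;> rcases z2 s with hs | hs <;> rw [hr, hs]
    · rw [if_neg (by decide), if_neg (by decide), if_neg (by decide)]
      linarith
    · rw [if_neg (by decide), if_pos (by decide), if_pos (by decide)]
      linarith
    · rw [if_pos (by decide), if_neg (by decide), if_neg (by decide)]
      linarith
    · rw [if_pos (by decide), if_pos (by decide), if_pos (by decide)]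
      linarith
  -- the sets with vanishing rows
  have key : ∀ T ⊆ S, ∑ p ∈ T, nr p 2 = 0 → (∀ q ∈ S, ∑ p ∈ Vt t S,
      ((if p ∈ T then (1 : ZMod 2) else 0) + (if q ∈ T then 1 else 0)) * sy r s q p = 0) →
      T = ∅ := by
    intro T hTS hTe hrow
    have h1 : (∏ p ∈ T, star p) % 8 = 1 := by
      rw [prod_star_mod T fun p hp => hS p (hTS hp), if_pos hTe]
    have h2 : Dl r s * ∏ p ∈ S, star p = (∏ p ∈ T, star p) * (Dl r s * ∏ p ∈ S \ T, star p) := by
      rw [← prod_sdiff hTS]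
      ring
    have h3 := hC _ _ h2 h1 (fun h => absurd h hneg) (by
      intro q hq hq2
      have hqP : Po q := ⟨hq, hq2⟩
      constructor
      · intro h
        rcases (Nat.prime_iff_prime_int.1 hq).dvd_or_dvd h with h | h
        · exact absurd h (not_dvd_Dl hqP)
        · have hqS : q ∈ S \ T := by
            by_contra hcon
            exact not_dvd_prod_star hqP _ (fun p hp => hS p (mem_sdiff.1 hp).1) hcon h
          have h4 := hrow q (mem_sdiff.1 hqS).1
          rw [row_eq hS hok hTS (mem_sdiff.1 hqS).1, if_neg (mem_sdiff.1 hqS).2, ns_zero] at h4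
          exact h4
      · intro h
        have hqT : q ∈ T := by
          by_contra hcon
          exact not_dvd_prod_star hqP _ (fun p hp => hS p (hTS hp)) hcon h
        have h4 := hrow q (hTS hqT)
        rw [row_eq hS hok hTS (hTS hqT), if_pos hqT, ns_zero] at h4
        exact h4)
    by_contra hne
    obtain ⟨p₀, hp₀⟩ := Finset.nonempty_iff_ne_empty.2 hne
    have h4 : (p₀ : ℤ) ∣ 1 := by
      rw [← h3]
      exact star_dvd_prod hp₀
    have h5 := (hS p₀ (hTS hp₀)).1.one_lt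
    rw [Int.natCast_dvd] at h4
    exact h5.ne' (Nat.dvd_one.1 h4)
  intro x hx
  -- normalization
  set c : ZMod 2 := if t = true then x 2 else 0 with hc
  set T := S.filter fun p => x p + c = 1 with hT
  have hTS : T ⊆ S := filter_subset _ _
  have h2T : (2 : ℕ) ∉ T := fun h => (hS 2 (hTS h)).2 rfl
  have hind : ∀ p ∈ Vt t S, (if p ∈ T then (1 : ZMod 2) else 0) = x p + c := by
    intro p hp
    rcases mem_Vt.1 hp with ⟨ht, rfl⟩ | hp
    · rw [if_neg h2T, hc, if_pos ht, z2_add_self]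
    · by_cases h : x p + c = 1
      · rw [if_pos (mem_filter.2 ⟨hp, h⟩), h]
      · have h5 : p ∉ T := fun h' => h (mem_filter.1 h').2
        rw [if_neg h5, (z2 _).resolve_right h]
  have hrow : ∀ q ∈ Vt t S, ∑ p ∈ Vt t S,
      ((if p ∈ T then (1 : ZMod 2) else 0) + (if q ∈ T then 1 else 0)) * sy r s q p = 0 := by
    intro q hq
    refine Eq.trans (sum_congr rfl fun p hp => ?_) (hx q hq)
    rw [hind p hp, hind q hq]
    congr 1
    linear_combination c * two0
  have hrow' : ∀ q ∈ S, ∑ p ∈ Vt t S,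
      ((if p ∈ T then (1 : ZMod 2) else 0) + (if q ∈ T then 1 else 0)) * sy r s q p = 0 :=
    fun q hq => hrow q (mem_Vt.2 (Or.inr hq))
  have hfin : T = ∅ → ∀ p ∈ Vt t S, ∀ q ∈ Vt t S, x p = x q := by
    intro h0 p hp q hq
    have h1 := hind p hp
    have h2 := hind q hq
    rw [h0, if_neg (notMem_empty _)] at h1 h2
    have h3 := h1.symm.trans h2
    exact add_right_cancel h3
  by_cases ht : t = true
  · refine hfin (key T hTS ?_ hrow')
    have h1 := hrow 2 (mem_Vt.2 (Or.inl ⟨ht, rfl⟩))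
    rwa [row_two hS hTS] at h1
  · have ht' : t = false := by simpa using ht
    by_cases hTe : ∑ p ∈ T, nr p 2 = 0
    · exact hfin (key T hTS hTe hrow')
    · -- the complement
      have h1 : S \ T = ∅ := by
        refine key (S \ T) sdiff_subset ?_ ?_
        · have h2 := hF ht'
          rw [← sum_sdiff hTS, (z2 _).resolve_left hTe] at h2
          exact add_right_cancel (h2.trans (zero_add 1).symm)
        · intro q hq
          have hV : Vt t S = S := by
            unfold Vt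
            rw [if_neg ht]
          refine Eq.trans (sum_congr rfl fun p hp => ?_) (hrow' q hq)
          rw [hV] at hp
          congr 1
          have e2 : (1 : ZMod 2) + 1 = 0 := by decide
          by_cases h3 : p ∈ T <;> by_cases h4 : q ∈ T <;> simp [h3, h4, hp, hq, e2]
      intro p hp q hq
      have hT' : ∀ p ∈ Vt t S, p ∈ T := by
        intro p hp
        rcases mem_Vt.1 hp with ⟨h, _⟩ | hp
        · exact absurd h ht
        · by_contra hcon
          have : p ∈ S \ T := mem_sdiff.2 ⟨hp, hcon⟩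
          rw [h1] at this
          exact absurd this (notMem_empty _)
      have h2 := hind p hp
      have h3 := hind q hq
      rw [if_pos (hT' p hp)] at h2
      rw [if_pos (hT' q hq)] at h3
      exact add_right_cancel (h2.symm.trans h3)

/-- **The real side.** -/
theorem crit_pos_of_Gd (hS : ∀ p ∈ S, Po p) (hG : Gd t r s S) (hok : t = false → r = 0 ∧ s = 0)
    (hU : ∑ p ∈ S, uu p = 1 + s) (hE : t = true → r = 0 → ∑ p ∈ S, nr p 2 = 1)
    (hpos : 0 < -(Dl r s * ∏ p ∈ S, star p)) : Crit (-(Dl r s * ∏ p ∈ S, star p)) := by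
  intro a b hab ha ha0 hcd
  have hab' : Dl r s * ∏ p ∈ S, star p = a * (-b) := by linarith
  obtain ⟨T, hTS, h1, h2⟩ := fac hS hab' ha
  have hTe : ∑ p ∈ T, nr p 2 = 0 := by
    by_contra h
    have h3 := prod_star_mod T fun p hp => hS p (hTS hp)
    rw [if_neg h, ← h1, ha] at h3
    norm_num at h3
  have hTu : ∑ p ∈ T, uu p = 0 := by
    by_contra h
    have h3 := prod_star_sign T
    rw [if_neg h, ← h1] at h3
    have h4 := ha0 hpos
    have h5 : 0 ≤ ∏ p ∈ T, (p : ℤ) := prod_nonneg fun p _ => by positivity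
    linarith
  have hT : T = ∅ := by
    refine real_side hS hG hok hU hE hTS hTu hTe fun q hq => ?_
    rw [row_eq hS hok hTS hq]
    have hq' := hS q hq
    split_ifs with hqT
    · have h3 : IsSquare (b : ZMod q) := by
        refine (hcd q hq'.1 hq'.2).2 ?_
        rw [h1]
        exact star_dvd_prod hqT
      have h4 : ¬ (q : ℤ) ∣ b := by
        intro h5
        have h6 : (q : ℤ) ∣ Dl r s * ∏ p ∈ S \ T, star p := by
          rw [← h2]
          exact (dvd_neg).2 h5
        rcases (Nat.prime_iff_prime_int.1 hq'.1).dvd_or_dvd h6 with h | h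
        · exact not_dvd_Dl hq' h
        · exact not_dvd_prod_star hq' _ (fun p hp => hS p (mem_sdiff.1 hp).1)
            (fun h => (mem_sdiff.1 h).2 hqT) h
      have h5 : ¬ (q : ℤ) ∣ -1 := by
        rw [dvd_neg, Int.natCast_dvd_ofNat]
        intro h2
        exact hq'.1.one_lt.ne' (Nat.dvd_one.1 h2)
      rw [← h2, show -b = (-1) * b by ring, ns_mul hq'.1 h5 h4, ns_neg_one hq'.1, ns_zero.2 h3,
        add_zero]
    · rw [← h1, ns_zero]
      refine (hcd q hq'.1 hq'.2).1 ?_
      rw [← dvd_neg, h2]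
      exact (star_dvd_prod (mem_sdiff.2 ⟨hq, hqT⟩)).mul_left _
  rw [h1, hT, prod_empty]

end Pool.Agent.N848.Q
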