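import Pool.Agent.N916.GB.Fin
import Pool.Agent.N848.Q.H

/-!
# The densities
-/

set_option autoImplicit false
set_option linter.unusedSectionVars false

namespace Pool.Agent.N848.Q

open Finset Filter
open Pool.Agent.Y703.CQ (nr)
open Pool.Agent.N973.ND (uu)
open Pool.Agent.N916.GB (Po sy Vt Gd Ok z2 eta sum_uu density eta_bounds low)

open scoped Classical

section data

variable {n : ℕ} {t : Bool} {r s : ZMod 2}

lemma po_of (hn2 : n % 2 = 1) : ∀ p ∈ n.primeFactors, Po p := by
  intro p hp
  refine ⟨Nat.prime_of_mem_primeFactors hp, ?_⟩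
  rintro rfl
  have := Nat.dvd_of_mem_primeFactors hp
  omega

lemma odd_of (h4 : n % 4 = if s = 0 then 3 else 1) : n % 2 = 1 := by
  split_ifs at h4 <;> omega

lemma uu_of (hn : Squarefree n) (h4 : n % 4 = if s = 0 then 3 else 1) :
    ∑ p ∈ n.primeFactors, uu p = 1 + s := by
  have h1 := sum_uu n.primeFactors (po_of (odd_of h4))
  rw [Nat.prod_primeFactors_of_squarefree hn, h4] at h1
  rcases z2 s with hs | hs <;> rcases z2 (∑ p ∈ n.primeFactors, uu p) with hu | hu <;>
    rw [hs, hu] at h1 ⊢ <;> first | decide | (exfalso; revert h1; decide)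

lemma star_of (hn : Squarefree n) (h4 : n % 4 = if s = 0 then 3 else 1) :
    ∏ p ∈ n.primeFactors, star p = if s = 0 then -(n : ℤ) else n := by
  have h2 : ∏ p ∈ n.primeFactors, (p : ℤ) = n := by
    rw [← Nat.cast_prod, Nat.prod_primeFactors_of_squarefree hn]
  rw [prod_star_sign, uu_of hn h4, h2]
  rcases z2 s with hs | hs <;> rw [hs]
  · rw [if_neg (by decide), if_pos rfl]; ring
  · rw [if_pos (by decide), if_neg (by decide)]; ring

lemma M_of (hn : Squarefree n) (h4 : n % 4 = if s = 0 then 3 else 1) :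
    Dl r s * ∏ p ∈ n.primeFactors, star p = -(((if r = 1 then 2 * n else n : ℕ)) : ℤ) := by
  rw [star_of hn h4]
  unfold Dl
  rcases z2 r with hr | hr <;> rcases z2 s with hs | hs <;> rw [hr, hs]
  · rw [if_neg (by decide), if_neg (by decide), if_pos rfl, if_neg (by decide)]; ring
  · rw [if_neg (by decide), if_pos rfl, if_neg (by decide), if_neg (by decide)]; ring
  · rw [if_pos rfl, if_neg (by decide), if_pos rfl, if_pos rfl]; push_cast; ring
  · rw [if_pos rfl, if_pos rfl, if_neg (by decide), if_pos rfl]; push_cast; ring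

lemma e_of (hn : Squarefree n) (h4 : n % 4 = if s = 0 then 3 else 1)
    (h8 : n % 8 = 3 ∨ n % 8 = 5) : ∑ p ∈ n.primeFactors, nr p 2 = 1 := by
  have h1 := prod_star_mod n.primeFactors (po_of (odd_of h4))
  rw [star_of hn h4] at h1
  refine (z2 _).resolve_left fun h => ?_
  rw [if_pos h] at h1
  split_ifs at h1 h4 <;> omega

/-- the imaginary side -/
theorem crit_iff (hn : Squarefree n) (h4 : n % 4 = if s = 0 then 3 else 1)
    (hok : t = false → r = 0 ∧ s = 0) (hF : t = false → n % 8 = 3) :
    Gd t r s n.primeFactors ↔ Crit (-(((if r = 1 then 2 * n else n : ℕ)) : ℤ)) := by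
  have hS := po_of (odd_of h4)
  have hF' : t = false → ∑ p ∈ n.primeFactors, nr p 2 = 1 := fun h => e_of hn h4 (Or.inl (hF h))
  rw [← M_of hn h4]
  exact ⟨fun h => crit_neg_of_Gd hS h hok hF', fun h => Gd_of_crit_neg hS hok hF' (uu_of hn h4) h⟩

/-- the real side -/
theorem crit_pos (hn : Squarefree n) (h4 : n % 4 = if s = 0 then 3 else 1)
    (hok : t = false → r = 0 ∧ s = 0) (hE : t = true → r = 0 → n % 8 = 5)
    (hG : Gd t r s n.primeFactors) : Crit (((if r = 1 then 2 * n else n : ℕ)) : ℤ) := by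
  have hS := po_of (odd_of h4)
  have hn0 : 0 < n := Nat.pos_of_ne_zero hn.ne_zero
  have e : (((if r = 1 then 2 * n else n : ℕ)) : ℤ) =
      -(Dl r s * ∏ p ∈ n.primeFactors, star p) := by
    rw [M_of hn h4, neg_neg]
  rw [e]
  refine crit_pos_of_Gd hS hG hok (uu_of hn h4) (fun h1 h2 => e_of hn h4 (Or.inr (hE h1 h2))) ?_
  rw [← e]
  have : 0 < (if r = 1 then 2 * n else n : ℕ) := by split_ifs <;> omega
  exact_mod_cast this

end data

/-! ### The classes modulo eight -/

/-- the criterion for `m` is a consequence of the one for `-m` -/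
theorem crit_pos_of_neg {m : ℕ} (hm : Squarefree m)
    (h8 : m % 8 = 2 ∨ m % 8 = 3 ∨ m % 8 = 5 ∨ m % 8 = 6) (h : Crit (-(m : ℤ))) :
    Crit (m : ℤ) := by
  have h10 : (0 : ZMod 2) ≠ 1 := by decide
  have h01 : (1 : ZMod 2) ≠ 0 := by decide
  rcases h8 with h8 | h8 | h8 | h8
  · -- `m = 2 n`, `n = 1` modulo `4`
    obtain ⟨n, rfl⟩ : ∃ n, m = 2 * n := ⟨m / 2, by omega⟩
    have hn : Squarefree n := hm.squarefree_of_dvd (Dvd.intro_left _ rfl)
    have h4 : n % 4 = if (1 : ZMod 2) = 0 then 3 else 1 := by rw [if_neg h01]; omega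
    have h1 := crit_iff (t := true) (r := 1) hn h4 (fun h => by simp at h) (fun h => by simp at h)
    have h2 := crit_pos (t := true) (r := 1) hn h4 (fun h => by simp at h)
      (fun _ h => absurd h h01)
    rw [if_pos rfl] at h1 h2
    exact h2 (h1.2 h)
  · have h4 : m % 4 = if (0 : ZMod 2) = 0 then 3 else 1 := by rw [if_pos rfl]; omega
    have h1 := crit_iff (t := false) (r := 0) hm h4 (fun _ => ⟨rfl, rfl⟩) (fun _ => h8)
    have h2 := crit_pos (t := false) (r := 0) hm h4 (fun _ => ⟨rfl, rfl⟩) (fun h => by simp at h)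
    rw [if_neg h10] at h1 h2
    exact h2 (h1.2 h)
  · have h4 : m % 4 = if (1 : ZMod 2) = 0 then 3 else 1 := by rw [if_neg h01]; omega
    have h1 := crit_iff (t := true) (r := 0) hm h4 (fun h => by simp at h) (fun h => by simp at h)
    have h2 := crit_pos (t := true) (r := 0) hm h4 (fun h => by simp at h) (fun _ _ => h8)
    rw [if_neg h10] at h1 h2
    exact h2 (h1.2 h)
  · -- `m = 2 n`, `n = 3` modulo `4`
    obtain ⟨n, rfl⟩ : ∃ n, m = 2 * n := ⟨m / 2, by omega⟩
    have hn : Squarefree n := hm.squarefree_of_dvd (Dvd.intro_left _ rfl)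
    have h4 : n % 4 = if (0 : ZMod 2) = 0 then 3 else 1 := by rw [if_pos rfl]; omega
    have h1 := crit_iff (t := true) (r := 1) hn h4 (fun h => by simp at h) (fun h => by simp at h)
    have h2 := crit_pos (t := true) (r := 1) hn h4 (fun h => by simp at h)
      (fun _ h => absurd h h01)
    rw [if_pos rfl] at h1 h2
    exact h2 (h1.2 h)

/-- the squarefree numbers in the class `k` modulo `8` with the property `P` -/
noncomputable def Cc (k : ℕ) (P : ℕ → Prop) (X : ℕ) : ℕ :=
  ((Icc 1 X).filter fun m => Squarefree m ∧ m % 8 = k ∧ P m).card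

/-- the odd classes -/
theorem dens_odd {k : ℕ} (hk : k = 1 ∨ k = 3 ∨ k = 5) : Tendsto
    (fun X : ℕ => (Cc k (fun m => Crit (-(m : ℤ))) X : ℝ) / Cc k (fun _ => True) X)
    atTop (nhds eta) := by
  have h10 : (0 : ZMod 2) ≠ 1 := by decide
  have h01 : (1 : ZMod 2) ≠ 0 := by decide
  set K : Finset ℕ := (range 120).filter fun a => a % 8 = k with hK
  have hmK : ∀ n : ℕ, n % 120 ∈ K ↔ n % 8 = k := by
    intro n
    rw [hK, mem_filter, mem_range]
    omega
  -- the parameters
  have key : ∀ (t : Bool) (s : ZMod 2) (a : ℕ), Ok t 0 s K → a ∈ K → a.Coprime 120 →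
      (t = false → s = 0) → (s = 0 → k = 3) → (s = 1 → k = 1 ∨ k = 5) →
      Tendsto (fun X : ℕ => (Cc k (fun m => Crit (-(m : ℤ))) X : ℝ) / Cc k (fun _ => True) X)
      atTop (nhds eta) := by
    intro t s a hok ha hc hts hs0 hs1
    refine (density t 0 s K hok a ha hc).congr fun X => ?_
    unfold Cc
    congr 3
    · refine filter_congr fun n _ => ?_
      rw [hmK]
      refine and_congr_right fun h1 => and_congr_right fun h2 => ?_
      have h4 : n % 4 = if s = 0 then 3 else 1 := by
        rcases z2 s with hs | hs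
        · rw [hs, if_pos rfl]
          have := hs0 hs
          omega
        · rw [hs, if_neg h01]
          have := hs1 hs
          omega
      have h5 := crit_iff (t := t) (r := 0) h1 h4 (fun h => ⟨rfl, hts h⟩)
        (fun h => by have := hs0 (hts h); omega)
      rw [if_neg h10] at h5
      exact h5
    · ext n
      simp only [mem_filter, hmK, and_true]
  rcases hk with rfl | rfl | rfl
  · refine key true 1 1 ⟨fun h => by simp at h, fun _ => Or.inr h01, fun a ha => ?_⟩ ?_ (by norm_num)
      (fun h => by simp at h) (fun h => absurd h h01) (fun _ => Or.inl rfl)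
    · rw [if_neg h01]
      rw [hK, mem_filter, mem_range] at ha
      omega
    · rw [hK, mem_filter, mem_range]
      omega
  · refine key false 0 11 ⟨fun _ => rfl, fun h => by simp at h, fun a ha => ?_⟩ ?_ (by norm_num)
      (fun _ => rfl) (fun _ => rfl) (fun h => absurd h h10)
    · rw [if_pos rfl]
      rw [hK, mem_filter, mem_range] at ha
      omega
    · rw [hK, mem_filter, mem_range]
      omega
  · refine key true 1 13 ⟨fun h => by simp at h, fun _ => Or.inr h01, fun a ha => ?_⟩ ?_ (by norm_num)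
      (fun h => by simp at h) (fun h => absurd h h01) (fun _ => Or.inr rfl)
    · rw [if_neg h01]
      rw [hK, mem_filter, mem_range] at ha
      omega
    · rw [hK, mem_filter, mem_range]
      omega

lemma Cc_even {l : ℕ} (hl : l = 1 ∨ l = 3) (P : ℕ → Prop) (X : ℕ) :
    Cc (2 * l) P X = ((Icc 1 (X / 2)).filter fun n => Squarefree n ∧ n % 4 = l ∧ P (2 * n)).card := by
  unfold Cc
  symm
  refine card_bij (fun n _ => 2 * n) ?_ ?_ ?_
  · intro n hn
    rw [mem_filter, mem_Icc] at hn ⊢
    obtain ⟨h1, h2, h3, h4⟩ := hn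
    refine ⟨by omega, ?_, by omega, h4⟩
    rw [Nat.squarefree_mul_iff]
    refine ⟨?_, Nat.prime_two.prime.squarefree, h2⟩
    rw [Nat.coprime_two_left, Nat.odd_iff]
    omega
  · intro n _ n' _ h
    have h' : 2 * n = 2 * n' := h
    omega
  · intro m hm
    rw [mem_filter, mem_Icc] at hm
    obtain ⟨h1, h2, h3, h4⟩ := hm
    obtain ⟨n, rfl⟩ : ∃ n, m = 2 * n := ⟨m / 2, by omega⟩
    refine ⟨n, ?_, rfl⟩
    rw [mem_filter, mem_Icc]
    exact ⟨by omega, h2.squarefree_of_dvd (Dvd.intro_left _ rfl), by omega, h4⟩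

/-- the even classes -/
theorem dens_even {l : ℕ} (hl : l = 1 ∨ l = 3) : Tendsto
    (fun X : ℕ => (Cc (2 * l) (fun m => Crit (-(m : ℤ))) X : ℝ) / Cc (2 * l) (fun _ => True) X)
    atTop (nhds eta) := by
  have h10 : (0 : ZMod 2) ≠ 1 := by decide
  have h01 : (1 : ZMod 2) ≠ 0 := by decide
  set K : Finset ℕ := (range 120).filter fun a => a % 4 = l with hK
  have hmK : ∀ n : ℕ, n % 120 ∈ K ↔ n % 4 = l := by
    intro n
    rw [hK, mem_filter, mem_range]
    omega
  have key : ∀ (s : ZMod 2) (a : ℕ), Ok true 1 s K → a ∈ K → a.Coprime 120 →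
      (s = 0 → l = 3) → (s = 1 → l = 1) →
      Tendsto (fun X : ℕ => (Cc (2 * l) (fun m => Crit (-(m : ℤ))) X : ℝ) /
        Cc (2 * l) (fun _ => True) X) atTop (nhds eta) := by
    intro s a hok ha hc hs0 hs1
    refine ((density true 1 s K hok a ha hc).comp (Nat.tendsto_div_const_atTop two_ne_zero)).congr
      fun X => ?_
    rw [Function.comp_apply, Cc_even hl, Cc_even hl]
    congr 3
    · refine filter_congr fun n _ => ?_
      rw [hmK]
      refine and_congr_right fun h1 => and_congr_right fun h2 => ?_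
      have h4 : n % 4 = if s = 0 then 3 else 1 := by
        rcases z2 s with hs | hs
        · rw [hs, if_pos rfl]
          have := hs0 hs
          omega
        · rw [hs, if_neg h01]
          have := hs1 hs
          omega
      have h5 := crit_iff (t := true) (r := 1) h1 h4 (fun h => by simp at h) (fun h => by simp at h)
      rw [if_pos rfl] at h5
      exact h5
    · ext n
      simp only [mem_filter, hmK, and_true]
  rcases hl with rfl | rfl
  · refine key 1 1 ⟨fun h => by simp at h, fun _ => Or.inl h01, fun a ha => ?_⟩ ?_ (by norm_num)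
      (fun h => absurd h h01) (fun _ => rfl)
    · rw [if_neg h01]
      rw [hK, mem_filter, mem_range] at ha
      omega
    · rw [hK, mem_filter, mem_range]
      omega
  · refine key 0 7 ⟨fun h => by simp at h, fun _ => Or.inl h01, fun a ha => ?_⟩ ?_ (by norm_num)
      (fun _ => rfl) (fun h => absurd h h10)
    · rw [if_pos rfl]
      rw [hK, mem_filter, mem_range] at ha
      omega
    · rw [hK, mem_filter, mem_range]
      omega

/-- **The classes.** -/
theorem dens_all {k : ℕ} (hk : k = 1 ∨ k = 2 ∨ k = 3 ∨ k = 5 ∨ k = 6) : Tendsto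
    (fun X : ℕ => (Cc k (fun m => Crit (-(m : ℤ))) X : ℝ) / Cc k (fun _ => True) X)
    atTop (nhds eta) := by
  rcases hk with rfl | rfl | rfl | rfl | rfl
  · exact dens_odd (Or.inl rfl)
  · exact dens_even (l := 1) (Or.inl rfl)
  · exact dens_odd (Or.inr (Or.inl rfl))
  · exact dens_odd (Or.inr (Or.inr rfl))
  · exact dens_even (l := 3) (Or.inr rfl)

end Pool.Agent.N848.Q
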