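import Pool.Agent.N848.Q.D

/-!
# Multiquadratic fields
-/

set_option autoImplicit false
set_option linter.unusedSectionVars false

namespace Pool.Agent.N848.Q

open Pool.Agent.Y715.Gi (QB)
open Pool.Agent.R384 (vl Coc CobOn CocOn sgc kr mem_kr vl_one vl_mul)

open scoped Classical

/-- change of the root by a rational factor -/
lemma ChiQ.resc {χ : G →* ℤ_[2]ˣ} {r : QB} (cd : ChiQ χ r) {f : ℚ} (hf : f ≠ 0) :
    ChiQ χ (r / f) := by
  have hfQ : (f : QB) ≠ 0 := by exact_mod_cast hf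
  have h1 : ∀ σ : G, σ (r / f) = r / f ↔ σ r = r := by
    intro σ
    rw [map_div₀, map_ratCast, div_left_inj' hfQ]
  have h2 : ∀ σ : G, σ (r / f) = -(r / f) ↔ σ r = -r := by
    intro σ
    rw [map_div₀, map_ratCast, ← neg_div, div_left_inj' hfQ]
  refine ⟨cd.cont, div_ne_zero cd.r0 hfQ, ?_, ?_, ?_, ?_⟩
  · intro σ
    rw [h1, h2]
    exact cd.or σ
  · intro σ h
    exact cd.one σ ((h1 σ).1 h)
  · intro σ h
    exact cd.neg σ ((h2 σ).1 h)
  · intro p _ ι hp σ hσ
    rw [h1, h2]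
    exact cd.inert p ι hp σ hσ

section mq

variable (s : ℤ → QB)

/-- the elements that fix the `s a`, `a ∈ A` -/
def fixs (A : Finset ℤ) : Subgroup G where
  carrier := {σ | ∀ a ∈ A, σ (s a) = s a}
  mul_mem' := by
    intro a b ha hb i hi'
    rw [AlgEquiv.mul_apply, hb i hi', ha i hi']
  one_mem' := fun i _ => rfl
  inv_mem' := by
    intro a ha i hi'
    have h1 := ha i hi'
    calc a⁻¹ (s i) = a⁻¹ (a (s i)) := by rw [h1]
      _ = s i := by rw [← AlgEquiv.mul_apply, inv_mul_cancel, AlgEquiv.one_apply]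

variable {s} (hs0 : ∀ a, s a ≠ 0) (hs : ∀ a (σ : G), σ (s a) = s a ∨ σ (s a) = -s a)

theorem van_all : ∀ (A : Finset ℤ) (χ : G →* ℤ_[2]ˣ),
    (∀ T ⊆ A, VanOn (χ * ∏ a ∈ T, sgc (es (hs0 a) (hs a))) ⊤) → VanOn χ (fixs s A) := by
  intro A
  induction A using Finset.induction_on with
  | empty =>
    intro χ h
    have h1 := h ∅ (Finset.Subset.refl _)
    rw [Finset.prod_empty, mul_one] at h1
    have e : (fixs s ∅ : Subgroup G) = ⊤ := by
      ext σ
      exact ⟨fun _ => trivial, fun _ i hi' => absurd hi' (Finset.notMem_empty i)⟩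
    rwa [e]
  | insert b A hb ih =>
    intro χ h
    have e : fixs s (insert b A) = kr (es (hs0 b) (hs b)) (fixs s A) := by
      ext σ
      rw [mem_kr, es_one]
      constructor
      · intro h1
        exact ⟨fun i hi' => h1 i (Finset.mem_insert_of_mem hi'), h1 b (Finset.mem_insert_self b A)⟩
      · rintro ⟨h1, h2⟩ i hi'
        rcases Finset.mem_insert.1 hi' with rfl | h3
        · exact h2
        · exact h1 i h3
    rw [e]
    refine VanOn.step (es_open (hs0 b) (hs b)) (ih χ fun T hT => h T (hT.trans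
      (Finset.subset_insert b A))) (ih _ fun T hT => ?_)
    have h1 := h (insert b T) (Finset.insert_subset_insert b hT)
    rw [Finset.prod_insert (fun h' => hb (hT h'))] at h1
    have e2 : χ * sgc (es (hs0 b) (hs b)) * ∏ a ∈ T, sgc (es (hs0 a) (hs a)) =
        χ * (sgc (es (hs0 b) (hs b)) * ∏ a ∈ T, sgc (es (hs0 a) (hs a))) :=
      MonoidHom.ext fun σ => mul_assoc _ _ _
    rw [e2]
    exact h1

include hs0 hs in
/-- the product of the characters -/
theorem chi_prod (T : Finset ℤ) : ChiQ (∏ a ∈ T, sgc (es (hs0 a) (hs a))) (∏ a ∈ T, s a) := by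
  induction T using Finset.induction_on with
  | empty =>
    rw [Finset.prod_empty, Finset.prod_empty]
    have h := chi_cyc_even (k := 0) ⟨0, rfl⟩
    have e : (cyc ^ (0 : ℤ) : G →* ℤ_[2]ˣ) = 1 := MonoidHom.ext fun σ => zpow_zero _
    rwa [e] at h
  | insert b T hb ih =>
    rw [Finset.prod_insert hb, Finset.prod_insert hb]
    exact (chi_sgc (hs0 b) (hs b)).mul ih

include hs0 hs in
/-- **Multiquadratic fields.** -/
theorem van_mq (A : Finset ℤ) (h2 : ∀ a ∈ A, s a ^ 2 = a) (k : ℤ)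
    (hC : ∀ T ⊆ A, ∀ e f : ℤ, ∏ a ∈ T, a = e * f ^ 2 → Squarefree e →
      (Even k → Crit e) ∧ (Odd k → Crit (-e))) : VanOn (cyc ^ k) (fixs s A) := by
  refine van_all hs0 hs A _ fun T hT => ?_
  have h3 : (∏ a ∈ T, s a) ^ 2 = ((∏ a ∈ T, a : ℤ) : QB) := by
    rw [← Finset.prod_pow, Int.cast_prod]
    exact Finset.prod_congr rfl fun a ha => h2 a (hT ha)
  have h4 : ∏ a ∈ T, a ≠ 0 := by
    intro h5
    rw [h5, Int.cast_zero] at h3
    exact Finset.prod_ne_zero_iff.2 (fun a _ => hs0 a) ((pow_eq_zero_iff two_ne_zero).1 h3)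
  -- the squarefree part
  obtain ⟨a, b, hab, ha⟩ := Nat.sq_mul_squarefree (∏ a ∈ T, a).natAbs
  have hb0 : b ≠ 0 := by
    rintro rfl
    rw [pow_two, zero_mul, zero_mul] at hab
    exact h4 (Int.natAbs_eq_zero.1 hab.symm)
  set e : ℤ := (∏ a ∈ T, a).sign * a with he
  have hsq : Squarefree e.natAbs := by
    rw [he, Int.natAbs_mul, Int.natAbs_sign_of_ne_zero h4, one_mul, Int.natAbs_natCast]
    exact ha
  have hef : ∏ a ∈ T, a = e * (b : ℤ) ^ 2 := by
    conv_lhs => rw [← Int.sign_mul_natAbs (∏ a ∈ T, a)]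
    rw [← hab, he]
    push_cast
    ring
  obtain ⟨hE, hO⟩ := hC T hT e b hef (Int.squarefree_natAbs.1 hsq)
  have hbQ : ((b : ℚ) : QB) ≠ 0 := by exact_mod_cast hb0
  have hcd := chi_prod hs0 hs T
  rcases Int.even_or_odd k with hk | hk
  · refine van_top (((chi_cyc_even hk).mul hcd).resc (f := b) (by exact_mod_cast hb0)) (m := e)
      ?_ hsq (hE hk)
    rw [one_mul, div_pow, h3, hef, div_eq_iff (pow_ne_zero _ hbQ)]
    push_cast
    ring
  · obtain ⟨I, hI⟩ : ∃ I : QB, I ^ 2 = -1 := IsAlgClosed.exists_pow_nat_eq _ (by norm_num)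
    refine van_top (((chi_cyc_odd hI hk).mul hcd).resc (f := b) (by exact_mod_cast hb0)) (m := -e)
      ?_ (by rwa [Int.natAbs_neg]) (hO hk)
    rw [div_pow, mul_pow, hI, h3, hef, div_eq_iff (pow_ne_zero _ hbQ)]
    push_cast
    ring

end mq

end Pool.Agent.N848.Q
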